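import Mathlib

set_option autoImplicit false

namespace Pool.Agent.helper49.GP

open Finset

/-- The properties of the extremal functions which are used. -/
structure Good (r : ℕ → ℕ) : Prop where
  zero : r 0 = 0
  one : r 1 = 1
  mono : Monotone r
  add : ∀ m n, r (m + n) ≤ r m + r n
  unb : ∀ K, ∃ n, K < r n
  roth : ∀ K : ℕ, ∃ n₀ : ℕ, ∀ n, n₀ ≤ n → K * r n ≤ n
  behrend : ∀ N : ℕ, (N : ℝ) * Real.exp (-4 * √(Real.log N)) ≤ r N

variable {r : ℕ → ℕ}

lemma Good.succ (hr : Good r) (n : ℕ) : r (n + 1) ≤ r n + 1 := by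
  have h := hr.add n 1
  rwa [hr.one] at h

lemma Good.le (hr : Good r) (n : ℕ) : r n ≤ n := by
  induction n with
  | zero => rw [hr.zero]
  | succ n ih => have := hr.succ n; omega

/-- The jumps of the function. -/
def U (r : ℕ → ℕ) : Set ℕ := {n | 1 ≤ n ∧ r (n - 1) < r n}

lemma zero_notMem : (0 : ℕ) ∉ U r := fun h => by
  have := h.1
  omega

open Classical in
lemma count (hr : Good r) (N L : ℕ) : ((Ioc N (N + L)).filter (· ∈ U r)).card + r N = r (N + L) := by
  induction L with
  | zero => simp
  | succ L ih =>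
    have h1 : Ioc N (N + (L + 1)) = insert (N + L + 1) (Ioc N (N + L)) := by
      ext x
      simp only [mem_Ioc, mem_insert]
      omega
    have h2 : (N + L + 1) ∉ (Ioc N (N + L)).filter (· ∈ U r) := by
      simp only [mem_filter, mem_Ioc]
      omega
    rw [h1, filter_insert]
    have h3 := hr.mono (show N + L ≤ N + L + 1 by omega)
    have h4 := hr.succ (N + L)
    split_ifs with h
    · rw [card_insert_of_notMem h2]
      have h5 := h.2
      simp only [Nat.add_sub_cancel] at h5
      rw [show N + (L + 1) = N + L + 1 by ring]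
      omega
    · have h5 : ¬ (r (N + L) < r (N + L + 1)) := by
        intro h6
        exact h ⟨by omega, by simpa using h6⟩
      rw [show N + (L + 1) = N + L + 1 by ring]
      omega

open Classical in
lemma count_le (hr : Good r) (N L : ℕ) : ((Ioc N (N + L)).filter (· ∈ U r)).card ≤ r L := by
  have h1 := count hr N L
  have h2 := hr.add N L
  omega

/-- The multiples `i u`, `u ∈ U`. -/
def A (r : ℕ → ℕ) (i : ℕ) : Set ℕ := {n | ∃ u ∈ U r, n = i * u}

open Classical in
lemma countA_le (hr : Good r) (i : ℕ) (hi : 1 ≤ i) (N L : ℕ) :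
    ((Ioc N (N + L)).filter (· ∈ A r i)).card ≤ r L := by
  have h1 : ((Ioc N (N + L)).filter (· ∈ A r i)).card ≤
      ((Ioc (N / i) (N / i + L)).filter (· ∈ U r)).card := by
    refine card_le_card_of_injOn (fun n => n / i) ?_ ?_
    · intro n hn
      simp only [coe_filter, mem_Ioc, Set.mem_setOf_eq] at hn ⊢
      obtain ⟨⟨h1, h2⟩, u, hu, rfl⟩ := hn
      have h3 : i * u / i = u := Nat.mul_div_cancel_left u (by omega)
      rw [h3]
      refine ⟨⟨?_, ?_⟩, hu⟩
      · exact (Nat.div_lt_iff_lt_mul (by omega)).mpr (by rw [mul_comm]; exact h1)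
      · have h4 : u = i * u / i := h3.symm
        rw [h4]
        calc i * u / i ≤ (N + L) / i := Nat.div_le_div_right h2
          _ ≤ (N + i * L) / i := Nat.div_le_div_right (by nlinarith)
          _ = N / i + L := Nat.add_mul_div_left N L (by omega)
    · intro x hx y hy hxy
      simp only [coe_filter, mem_Ioc, Set.mem_setOf_eq] at hx hy hxy
      obtain ⟨_, u, hu, rfl⟩ := hx
      obtain ⟨_, v, hv, rfl⟩ := hy
      rw [Nat.mul_div_cancel_left u (by omega), Nat.mul_div_cancel_left v (by omega)] at hxy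
      rw [hxy]
  exact h1.trans (count_le hr _ _)

/-- A bounded set of elements of `U`. -/
lemma card_le_of_diam (hr : Good r) (F : Finset ℕ) (hF : ∀ x ∈ F, x ∈ U r) (L : ℕ)
    (h : ∀ x ∈ F, ∀ y ∈ F, y ≤ x + L) : F.card ≤ r (L + 1) := by
  classical
  rcases F.eq_empty_or_nonempty with rfl | hne
  · simp
  · set x := F.min' hne with hx
    have hxF : x ∈ F := F.min'_mem hne
    have hx1 : 1 ≤ x := (hF x hxF).1
    refine le_trans (card_le_card ?_) (count_le hr (x - 1) (L + 1))
    intro y hy
    rw [mem_filter, mem_Ioc]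
    have h1 : x ≤ y := F.min'_le y hy
    have h2 := h x hxF y hy
    exact ⟨⟨by omega, by omega⟩, hF y hy⟩

/-- `U` is infinite. -/
lemma U_unbounded (hr : Good r) (n₀ : ℕ) : ∃ u ∈ U r, n₀ ≤ u := by
  classical
  by_contra hcon
  push Not at hcon
  -- then the Roth numbers are bounded
  have h1 : ∀ L, r (n₀ + L) = r n₀ := by
    intro L
    have h2 := count hr n₀ L
    have h3 : ((Ioc n₀ (n₀ + L)).filter (· ∈ U r)) = ∅ := by
      rw [filter_eq_empty_iff]
      intro x hx hxU
      have := hcon x hxU
      rw [mem_Ioc] at hx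
      omega
    rw [h3, card_empty] at h2
    omega
  obtain ⟨n, hn⟩ := hr.unb (r n₀)
  rcases le_total n₀ n with h2 | h2
  · have h3 := h1 (n - n₀)
    rw [show n₀ + (n - n₀) = n by omega] at h3
    omega
  · have := hr.mono h2
    omega

end Pool.Agent.helper49.GP
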