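import Mathlib

/-!
# MP_33a656_nt: the numbers of the question
-/

set_option autoImplicit false

namespace Pool.Agent.helper49.GP

/-- `A` contains no arithmetic progression `a, a + d, ..., a + (k - 1) d` with `d > 0`. -/
def APFree (k : ℕ) (A : Finset ℕ) : Prop := ∀ a d : ℕ, 0 < d → ∃ i < k, a + i * d ∉ A

/-- `rk k L` is the maximum size of a subset of `{0, ..., L - 1}` which contains no `k`-term
arithmetic progression. -/
noncomputable def rk (k L : ℕ) : ℕ :=
  sSup {m | ∃ A : Finset ℕ, A ⊆ Finset.range L ∧ APFree k A ∧ A.card = m}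

/-- `u k m = min {L ≥ 1 : rk k L = m}`. -/
noncomputable def u (k m : ℕ) : ℕ := sInf {L | 1 ≤ L ∧ rk k L = m}

/-- `dens k s = (s - 1) ∑_{m ≥ 1} s^(- u k m)`, the limit of `g_k^(s)(n) / n`. -/
noncomputable def dens (k s : ℕ) : ℝ := ((s : ℝ) - 1) * ∑' m : ℕ, ((s : ℝ) ^ u k (m + 1))⁻¹

end Pool.Agent.helper49.GP
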