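import Mathlib
import Pool.Agent.helper49.GP.Defs
import Pool.Agent.helper49.GP.Count

set_option autoImplicit false

namespace Pool.Agent.helper49.GP

open Finset

lemma rk_bdd (k L : ℕ) : BddAbove {m | ∃ A : Finset ℕ, A ⊆ Finset.range L ∧ APFree k A ∧ A.card = m} := by
  refine ⟨L, ?_⟩
  rintro m ⟨A, hA, -, rfl⟩
  have := card_le_card hA
  rwa [card_range] at this

lemma le_rk {k L : ℕ} {A : Finset ℕ} (h : A ⊆ range L) (h' : APFree k A) : A.card ≤ rk k L :=
  le_csSup (rk_bdd k L) ⟨A, h, h', rfl⟩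

lemma rk_spec {k : ℕ} (hk : 1 ≤ k) (L : ℕ) : ∃ A : Finset ℕ, A ⊆ range L ∧ APFree k A ∧ A.card = rk k L :=
  Nat.sSup_mem (s := {m | ∃ A : Finset ℕ, A ⊆ Finset.range L ∧ APFree k A ∧ A.card = m})
    ⟨0, ∅, by simp, fun a d _ => ⟨0, by omega, by simp⟩, by simp⟩ (rk_bdd k L)

lemma APFree.subset {k : ℕ} {A B : Finset ℕ} (h : APFree k B) (hAB : A ⊆ B) : APFree k A := by
  intro a d hd
  obtain ⟨i, hi, h1⟩ := h a d hd
  exact ⟨i, hi, fun h2 => h1 (hAB h2)⟩

lemma rk_zero (k : ℕ) (hk : 1 ≤ k) : rk k 0 = 0 := by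
  obtain ⟨A, h1, -, h3⟩ := rk_spec hk 0
  rw [range_zero, subset_empty] at h1
  rw [← h3, h1, card_empty]

lemma rk_one (k : ℕ) (hk : 2 ≤ k) : rk k 1 = 1 := by
  refine le_antisymm ?_ ?_
  · obtain ⟨A, h1, -, h3⟩ := rk_spec (show 1 ≤ k by omega) 1
    rw [← h3]
    have := card_le_card h1
    rwa [card_range] at this
  · have h : APFree k ({0} : Finset ℕ) := by
      intro a d hd
      refine ⟨1, by omega, ?_⟩
      rw [mem_singleton]
      omega
    have := le_rk (k := k) (L := 1) (A := {0}) (by simp) h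
    rwa [card_singleton] at this

lemma rk_mono (k : ℕ) (hk : 1 ≤ k) : Monotone (rk k) := by
  intro m n hmn
  obtain ⟨A, h1, h2, h3⟩ := rk_spec hk m
  rw [← h3]
  exact le_rk (h1.trans (range_mono hmn)) h2

lemma rk_add (k : ℕ) (hk : 1 ≤ k) (m n : ℕ) : rk k (m + n) ≤ rk k m + rk k n := by
  obtain ⟨A, h1, h2, h3⟩ := rk_spec hk (m + n)
  rw [← h3]
  have h4 : A.card = (A.filter (· < m)).card + (A.filter (fun x => ¬ x < m)).card :=
    (card_filter_add_card_filter_not _).symm
  have h5 : (A.filter (· < m)).card ≤ rk k m := by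
    refine le_rk ?_ (h2.subset (filter_subset _ _))
    intro x hx
    rw [mem_filter] at hx
    exact mem_range.mpr hx.2
  have h6 : ((A.filter (fun x => ¬ x < m)).image (· - m)).card = (A.filter (fun x => ¬ x < m)).card := by
    refine card_image_of_injOn ?_
    intro x hx y hy hxy
    simp only [coe_filter, Set.mem_setOf_eq] at hx hy hxy
    omega
  have h7 : ((A.filter (fun x => ¬ x < m)).image (· - m)).card ≤ rk k n := by
    refine le_rk ?_ ?_
    · intro y hy
      rw [mem_image] at hy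
      obtain ⟨x, hx, rfl⟩ := hy
      rw [mem_filter] at hx
      have := mem_range.mp (h1 hx.1)
      rw [mem_range]
      omega
    · intro a d hd
      obtain ⟨i, hi, h8⟩ := h2 (a + m) d hd
      refine ⟨i, hi, fun h9 => h8 ?_⟩
      rw [mem_image] at h9
      obtain ⟨x, hx, hx2⟩ := h9
      rw [mem_filter] at hx
      have : x = a + m + i * d := by
        have h10 := hx.2
        omega
      rw [← this]
      exact hx.1
  omega

lemma roth_le_rk (k : ℕ) (hk : 3 ≤ k) (n : ℕ) : rothNumberNat n ≤ rk k n := by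
  obtain ⟨A, h1, h2, h3⟩ := rothNumberNat_spec n
  rw [← h2]
  refine le_rk h1 ?_
  intro a d hd
  by_contra hcon
  push Not at hcon
  have e0 := hcon 0 (by omega)
  have e1 := hcon 1 (by omega)
  have e2 := hcon 2 (by omega)
  have := h3 (a := a + 0 * d) (by exact_mod_cast e0) (b := a + 1 * d) (by exact_mod_cast e1)
    (c := a + 2 * d) (by exact_mod_cast e2) (by ring)
  omega

lemma rk_three_le (n : ℕ) : rk 3 n ≤ rothNumberNat n := by
  obtain ⟨A, h1, h2, h3⟩ := rk_spec (k := 3) (by norm_num) n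
  refine ThreeAPFree.le_rothNumberNat A ?_ (fun x hx => mem_range.mp (h1 hx)) h3
  have key : ∀ a b c : ℕ, a ∈ A → b ∈ A → c ∈ A → a + c = b + b → ¬ a < b := by
    intro a b c ha hb hc habc hab
    obtain ⟨i, hi, h4⟩ := h2 a (b - a) (by omega)
    have h5 : i = 0 ∨ i = 1 ∨ i = 2 := by omega
    rcases h5 with rfl | rfl | rfl
    · apply h4
      rwa [zero_mul, add_zero]
    · apply h4
      rwa [one_mul, show a + (b - a) = b by omega]
    · apply h4
      rwa [show a + 2 * (b - a) = c by omega]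
  intro a ha b hb c hc habc
  have h4 := key a b c ha hb hc habc
  have h5 := key c b a hc hb ha (by omega)
  omega

lemma roth_unb (K : ℕ) : ∃ n, K < rothNumberNat n := by
  have h4 : ∀ n, rothNumberNat n + 1 ≤ rothNumberNat (2 * n + 1) := by
    intro n
    obtain ⟨t, ht1, ht2, ht3⟩ := rothNumberNat_spec n
    have hlt : ∀ x ∈ t, x < n := fun x hx => mem_range.mp (ht1 hx)
    have hnot : 2 * n ∉ t := fun h => by have := hlt _ h; omega
    refine ThreeAPFree.le_rothNumberNat (insert (2 * n) t) ?_ ?_ ?_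
    · intro a ha b hb c hc habc
      simp only [coe_insert, Set.mem_insert_iff, mem_coe] at ha hb hc
      rcases ha with rfl | ha
      · rcases hb with rfl | hb
        · rfl
        · have := hlt b hb
          omega
      · have hla := hlt a ha
        rcases hc with rfl | hc
        · rcases hb with rfl | hb
          · omega
          · have := hlt b hb
            omega
        · have hlc := hlt c hc
          rcases hb with rfl | hb
          · omega
          · exact ht3 ha hb hc habc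
    · intro x hx
      rw [mem_insert] at hx
      rcases hx with rfl | hx
      · omega
      · have := hlt x hx
        omega
    · rw [card_insert_of_notMem hnot, ht2]
  induction K with
  | zero => exact ⟨1, by have := h4 0; simp only [mul_zero, zero_add] at this; omega⟩
  | succ K ih =>
    obtain ⟨n, hn⟩ := ih
    exact ⟨2 * n + 1, by have := h4 n; omega⟩

/-- From the limit to the form used. -/
lemma roth_form (r : ℕ → ℕ) (h : Filter.Tendsto (fun n : ℕ => (r n : ℝ) / n) Filter.atTop (nhds 0))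
    (h0 : r 0 = 0) (K : ℕ) : ∃ n₀ : ℕ, ∀ n, n₀ ≤ n → K * r n ≤ n := by
  have h1 : ∀ᶠ n : ℕ in Filter.atTop, (r n : ℝ) / n < 1 / ((K : ℝ) + 1) :=
    h.eventually (gt_mem_nhds (by positivity))
  obtain ⟨n₀, hn₀⟩ := Filter.eventually_atTop.mp h1
  refine ⟨n₀, fun n hn => ?_⟩
  rcases Nat.eq_zero_or_pos n with rfl | hn0
  · rw [h0]; simp
  · have h2 := hn₀ n hn
    have h3 : (0 : ℝ) < n := by exact_mod_cast hn0
    rw [div_lt_div_iff₀ h3 (by positivity)] at h2
    have h4 : (K : ℝ) * r n ≤ n := by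
      have : (0 : ℝ) ≤ r n := by positivity
      nlinarith
    exact_mod_cast h4

lemma good_of (k : ℕ) (hk : 3 ≤ k) (h : ∀ K : ℕ, ∃ n₀ : ℕ, ∀ n, n₀ ≤ n → K * rk k n ≤ n) :
    Good (rk k) where
  zero := rk_zero k (by omega)
  one := rk_one k (by omega)
  mono := rk_mono k (by omega)
  add := rk_add k (by omega)
  unb K := by
    obtain ⟨n, hn⟩ := roth_unb K
    exact ⟨n, hn.trans_le (roth_le_rk k hk n)⟩
  roth := h
  behrend N := by
    refine Behrend.roth_lower_bound.trans ?_
    exact_mod_cast roth_le_rk k hk N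

lemma roth_three (K : ℕ) : ∃ n₀ : ℕ, ∀ n, n₀ ≤ n → K * rk 3 n ≤ n := by
  have h := rothNumberNat_isLittleO_id.bound (c := 1 / ((K : ℝ) + 1)) (by positivity)
  obtain ⟨n₀, hn₀⟩ := Filter.eventually_atTop.mp h
  refine ⟨n₀, fun n hn => ?_⟩
  have h1 := hn₀ n hn
  simp only [RCLike.norm_natCast] at h1
  have h2 : (0 : ℝ) < (K : ℝ) + 1 := by positivity
  have h3 : ((K : ℝ) + 1) * rothNumberNat n ≤ n := by
    calc ((K : ℝ) + 1) * rothNumberNat n ≤ ((K : ℝ) + 1) * (1 / ((K : ℝ) + 1) * n) := by gcongr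
      _ = n := by field_simp
  have h4 : (K : ℝ) * rothNumberNat n ≤ n := by
    have : (0 : ℝ) ≤ rothNumberNat n := by positivity
    nlinarith
  have h5 : K * rothNumberNat n ≤ n := by exact_mod_cast h4
  exact (Nat.mul_le_mul_left _ (rk_three_le n)).trans h5

lemma good (k : ℕ) (hk : 3 ≤ k)
    (h : k = 3 ∨ Filter.Tendsto (fun L : ℕ => (rk k L : ℝ) / L) Filter.atTop (nhds 0)) : Good (rk k) := by
  refine good_of k hk ?_
  rcases h with rfl | h
  · exact roth_three
  · exact roth_form _ h (rk_zero k (by omega))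

end Pool.Agent.helper49.GP
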