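import Mathlib
import Pool.Agent.helper49.GP.Count

set_option autoImplicit false

namespace Pool.Agent.helper49.GP

open Finset

variable {r : ℕ → ℕ}

/-- Iterating an approximate dilation. -/
lemma chain {i j R : ℕ} (hi : 1 ≤ i) (hij : i < j)
    (h : ∀ u ∈ U r, R ≤ u → ∃ v ∈ U r, i * u ≤ j * v + R ∧ j * v ≤ i * u + R) (t : ℕ) :
    ∃ n₀ : ℕ, ∀ u ∈ U r, n₀ ≤ u → ∃ v ∈ U r, i ^ t * u ≤ j ^ t * v + R * j ^ t ∧
      j ^ t * v ≤ i ^ t * u + R * j ^ t := by
  induction t with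
  | zero => exact ⟨0, fun u hu _ => ⟨u, hu, by simp, by simp⟩⟩
  | succ t ih =>
    obtain ⟨n₀, hn₀⟩ := ih
    refine ⟨max n₀ (2 * R * j ^ t), fun u hu hun => ?_⟩
    obtain ⟨v, hv, h1, h2⟩ := hn₀ u hu ((le_max_left _ _).trans hun)
    have hu2 : 2 * R * j ^ t ≤ u := (le_max_right _ _).trans hun
    have hj : 0 < j ^ t := pow_pos (by omega) t
    have hit : 1 ≤ i ^ t := Nat.one_le_pow _ _ hi
    have hvR : R ≤ v := by
      have h3 : u ≤ i ^ t * u := Nat.le_mul_of_pos_left u hit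
      have h4 : R * j ^ t ≤ v * j ^ t := by nlinarith
      exact Nat.le_of_mul_le_mul_right h4 hj
    obtain ⟨w, hw, h3, h4⟩ := h v hv hvR
    refine ⟨w, hw, ?_, ?_⟩
    · calc i ^ (t + 1) * u = i * (i ^ t * u) := by ring
        _ ≤ i * (j ^ t * v + R * j ^ t) := Nat.mul_le_mul_left _ h1
        _ = j ^ t * (i * v) + R * j ^ t * i := by ring
        _ ≤ j ^ t * (j * w + R) + R * j ^ t * i := by gcongr
        _ = j ^ (t + 1) * w + R * j ^ t * (i + 1) := by ring
        _ ≤ j ^ (t + 1) * w + R * j ^ t * j := by gcongr; omega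
        _ = j ^ (t + 1) * w + R * j ^ (t + 1) := by ring
    · calc j ^ (t + 1) * w = j ^ t * (j * w) := by ring
        _ ≤ j ^ t * (i * v + R) := Nat.mul_le_mul_left _ h4
        _ = i * (j ^ t * v) + R * j ^ t := by ring
        _ ≤ i * (i ^ t * u + R * j ^ t) + R * j ^ t := by gcongr
        _ = i ^ (t + 1) * u + R * j ^ t * (i + 1) := by ring
        _ ≤ i ^ (t + 1) * u + R * j ^ t * j := by gcongr; omega
        _ = i ^ (t + 1) * u + R * j ^ (t + 1) := by ring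

/-- Powers of `j / i` are unbounded. -/
lemma exists_pow {i j : ℕ} (hi : 1 ≤ i) (hij : i < j) (K : ℕ) : ∃ t : ℕ, K * i ^ t ≤ j ^ t := by
  have h1 : (1 : ℝ) < (j : ℝ) / i := by
    rw [one_lt_div (by exact_mod_cast hi)]
    exact_mod_cast hij
  obtain ⟨t, ht⟩ := pow_unbounded_of_one_lt (K : ℝ) h1
  refine ⟨t, ?_⟩
  rw [div_pow, lt_div_iff₀ (by positivity)] at ht
  exact_mod_cast ht.le

/-- The recursive inequality for the Roth numbers. -/
lemma recursion (hr : Good r) {i j R : ℕ} (hi : 1 ≤ i) (hij : i < j)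
    (h : ∀ u ∈ U r, R ≤ u → ∃ v ∈ U r, i * u ≤ j * v + R ∧ j * v ≤ i * u + R) :
    ∃ X K : ℕ, 4 ≤ X ∧ ∀ n : ℕ, 2 * r n ≤ K + X * r (n / X) := by
  classical
  obtain ⟨y₀, hy₀⟩ := hr.roth (8 * (R + 1))
  obtain ⟨t, ht⟩ := exists_pow hi hij (max 4 y₀)
  obtain ⟨n₀, hn₀⟩ := chain hi hij h t
  set P := i ^ t with hP
  set Q := j ^ t with hQ
  have hP0 : 0 < P := pow_pos (by omega) t
  have hQ0 : 0 < Q := pow_pos (by omega) t
  set X := Q / P with hX
  have hX1 : max 4 y₀ ≤ X := (Nat.le_div_iff_mul_le hP0).mpr ht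
  have hX4 : 4 ≤ X := (le_max_left _ _).trans hX1
  have hXy : y₀ ≤ X := (le_max_right _ _).trans hX1
  have hXP : X * P ≤ Q := Nat.div_mul_le_self Q P
  have hQX : Q < (X + 1) * P := by
    have h1 := Nat.div_add_mod Q P
    have h2 := Nat.mod_lt Q hP0
    calc Q = P * (Q / P) + Q % P := h1.symm
      _ < P * (Q / P) + P := Nat.add_lt_add_left h2 _
      _ = (X + 1) * P := by rw [hX]; ring
  -- the length of the fibres
  have hL : 2 * r (2 * R * Q / P + 1) ≤ X := by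
    have h1 : 2 * R * Q / P + 1 ≤ 2 * (R + 1) * (X + 1) := by
      have h2 : 2 * R * Q / P ≤ 2 * R * (X + 1) := by
        rw [Nat.div_le_iff_le_mul_add_pred hP0]
        nlinarith
      nlinarith
    have h3 := hr.mono h1
    have h4 := hy₀ (2 * (R + 1) * (X + 1)) (by nlinarith)
    have h5 : 4 * r (2 * (R + 1) * (X + 1)) ≤ X + 1 := by
      have h6 : 2 * (R + 1) * (4 * r (2 * (R + 1) * (X + 1))) ≤ 2 * (R + 1) * (X + 1) := by
        calc 2 * (R + 1) * (4 * r (2 * (R + 1) * (X + 1)))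
            = 8 * (R + 1) * r (2 * (R + 1) * (X + 1)) := by ring
          _ ≤ _ := h4
      exact Nat.le_of_mul_le_mul_left h6 (by positivity)
    omega
  refine ⟨X, 2 * n₀ + R * X, hX4, fun n => ?_⟩
  -- the elements of `U` up to `n`
  set S := ((Ioc n₀ (n₀ + n)).filter (· ∈ U r)).filter (· ≤ n) with hS
  have hcount : r n ≤ n₀ + S.card := by
    have h1 := count hr 0 n
    rw [zero_add, hr.zero, add_zero] at h1
    rw [← h1]
    have h2 : (Ioc 0 n).filter (· ∈ U r) ⊆ Ioc 0 n₀ ∪ S := by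
      intro x hx
      rw [mem_filter, mem_Ioc] at hx
      rw [mem_union, mem_Ioc, hS, mem_filter, mem_filter, mem_Ioc]
      rcases le_or_gt x n₀ with h3 | h3
      · exact Or.inl ⟨hx.1.1, h3⟩
      · exact Or.inr ⟨⟨⟨h3, by omega⟩, hx.2⟩, hx.1.2⟩
    calc _ ≤ (Ioc 0 n₀ ∪ S).card := card_le_card h2
      _ ≤ (Ioc 0 n₀).card + S.card := card_union_le _ _
      _ = n₀ + S.card := by rw [Nat.card_Ioc, Nat.sub_zero]
  have hex : ∀ u : ℕ, ∃ v : ℕ, u ∈ S → v ∈ U r ∧ P * u ≤ Q * v + R * Q ∧ Q * v ≤ P * u + R * Q := by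
    intro u
    by_cases hu : u ∈ S
    · rw [hS, mem_filter, mem_filter, mem_Ioc] at hu
      obtain ⟨v, hv, h1, h2⟩ := hn₀ u hu.1.2 hu.1.1.1.le
      exact ⟨v, fun _ => ⟨hv, h1, h2⟩⟩
    · exact ⟨0, fun h => absurd h hu⟩
  choose f hf using hex
  have hmaps : ∀ u ∈ S, f u ∈ (Ioc 0 (0 + (n / X + R))).filter (· ∈ U r) := by
    intro u hu
    obtain ⟨hv, h1, h2⟩ := hf u hu
    rw [mem_filter, mem_Ioc]
    refine ⟨⟨hv.1, ?_⟩, hv⟩
    have hun : u ≤ n := by
      rw [hS, mem_filter] at hu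
      exact hu.2
    have h3 : Q * (f u) ≤ P * n + R * Q := h2.trans (by gcongr)
    have h4 : f u ≤ P * n / Q + R := by
      have h5 : f u ≤ (P * n + R * Q) / Q := (Nat.le_div_iff_mul_le hQ0).mpr (by rw [mul_comm]; exact h3)
      rwa [Nat.add_mul_div_right _ _ hQ0] at h5
    have h6 : P * n / Q ≤ n / X := by
      calc P * n / Q ≤ P * n / (X * P) := Nat.div_le_div_left hXP (by positivity)
        _ = P * n / (P * X) := by rw [mul_comm X P]
        _ = n / X := Nat.mul_div_mul_left n X hP0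
    omega
  have hfib : ∀ b ∈ (Ioc 0 (0 + (n / X + R))).filter (· ∈ U r),
      (S.filter (fun a => f a = b)).card ≤ r (2 * R * Q / P + 1) := by
    intro b _
    refine card_le_of_diam hr _ ?_ _ ?_
    · intro x hx
      rw [mem_filter, hS, mem_filter, mem_filter] at hx
      exact hx.1.1.2
    · intro x hx y hy
      rw [mem_filter] at hx hy
      obtain ⟨_, h1, h2⟩ := hf x hx.1
      obtain ⟨_, h3, h4⟩ := hf y hy.1
      rw [hx.2] at h1 h2
      rw [hy.2] at h3 h4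
      rcases le_or_gt y x with h5 | h5
      · exact h5.trans (Nat.le_add_right _ _)
      · have h6 : P * (y - x) ≤ 2 * R * Q := by
          have h7 : P * y ≤ P * x + 2 * R * Q := by nlinarith
          rw [Nat.mul_sub]
          exact tsub_le_iff_left.mpr h7
        have h8 : y - x ≤ 2 * R * Q / P := (Nat.le_div_iff_mul_le hP0).mpr (by rw [mul_comm]; exact h6)
        exact tsub_le_iff_left.mp h8
  have hcard := card_le_mul_card_image_of_maps_to hmaps _ hfib
  have h7 := count_le hr 0 (n / X + R)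
  have h8 := hr.add (n / X) R
  have h9 := hr.le R
  have h10 : S.card ≤ r (2 * R * Q / P + 1) * (r (n / X) + R) :=
    hcard.trans (Nat.mul_le_mul_left _ (by omega))
  have h11 : 2 * S.card ≤ X * (r (n / X) + R) := by
    calc 2 * S.card ≤ 2 * (r (2 * R * Q / P + 1) * (r (n / X) + R)) := by omega
      _ = (2 * r (2 * R * Q / P + 1)) * (r (n / X) + R) := by ring
      _ ≤ X * (r (n / X) + R) := Nat.mul_le_mul_right _ hL
  nlinarith

/-- The recursive inequality contradicts the lower bound of Behrend. -/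
lemma no_recursion (hr : Good r) (X K : ℕ) (hX : 4 ≤ X) (h : ∀ n : ℕ, 2 * r n ≤ K + X * r (n / X)) : False := by
  have hX0 : 0 < X := by omega
  have hXr : (4 : ℝ) ≤ X := by exact_mod_cast hX
  have h1 : ∀ q : ℕ, (r (X ^ q) : ℝ) + K ≤ ((X : ℝ) / 2) ^ q * (1 + K) := by
    intro q
    induction q with
    | zero =>
      rw [pow_zero, pow_zero, one_mul]
      have := hr.one
      rw [this]
      norm_num
    | succ q ih =>
      have h2 := h (X ^ (q + 1))
      rw [pow_succ, Nat.mul_div_cancel _ hX0] at h2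
      have h3 : (2 : ℝ) * r (X ^ q * X) ≤ K + X * r (X ^ q) := by exact_mod_cast h2
      have h4 : (0 : ℝ) ≤ K := by positivity
      have h5 : (r (X ^ q * X) : ℝ) + K ≤ ((X : ℝ) / 2) * (r (X ^ q) + K) := by nlinarith
      calc (r (X ^ (q + 1)) : ℝ) + K = r (X ^ q * X) + K := by rw [pow_succ]
        _ ≤ ((X : ℝ) / 2) * (r (X ^ q) + K) := h5
        _ ≤ ((X : ℝ) / 2) * (((X : ℝ) / 2) ^ q * (1 + K)) := by gcongr
        _ = ((X : ℝ) / 2) ^ (q + 1) * (1 + K) := by ring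
  -- Behrend
  have h2 : ∀ q : ℕ, (2 : ℝ) ^ q * Real.exp (-4 * √(Real.log ((X : ℝ) ^ q))) ≤ 1 + K := by
    intro q
    have h3 := hr.behrend (X ^ q)
    push_cast at h3
    have h4 : (0 : ℝ) ≤ K := by positivity
    have h5 : (X : ℝ) ^ q * Real.exp (-4 * √(Real.log ((X : ℝ) ^ q))) ≤
        ((X : ℝ) / 2) ^ q * (1 + K) := by
      have h6 := h1 q
      linarith
    rw [div_pow, div_mul_eq_mul_div, le_div_iff₀ (by positivity)] at h5
    have h7 : (0 : ℝ) < (X : ℝ) ^ q := by positivity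
    have h8 : (X : ℝ) ^ q * ((2 : ℝ) ^ q * Real.exp (-4 * √(Real.log ((X : ℝ) ^ q)))) ≤
        (X : ℝ) ^ q * (1 + K) := by
      calc _ = (X : ℝ) ^ q * Real.exp (-4 * √(Real.log ((X : ℝ) ^ q))) * 2 ^ q := by ring
        _ ≤ _ := h5
    exact le_of_mul_le_mul_left h8 h7
  -- choose a large square
  set lX := √(Real.log (X : ℝ)) with hlX
  obtain ⟨w, hw⟩ := exists_nat_gt ((4 * lX + Real.log (1 + K)) / Real.log 2)
  have hlog2 : 0 < Real.log 2 := Real.log_pos (by norm_num)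
  rw [div_lt_iff₀ hlog2] at hw
  have hK : 0 ≤ Real.log (1 + (K : ℝ)) := Real.log_nonneg (by
    have : (0 : ℝ) ≤ K := by positivity
    linarith)
  have hl0 : 0 ≤ lX := Real.sqrt_nonneg _
  have hw0 : (0 : ℝ) < w := by
    by_contra hn
    push Not at hn
    have : (w : ℝ) * Real.log 2 ≤ 0 := mul_nonpos_of_nonpos_of_nonneg hn hlog2.le
    linarith
  have hw1 : (1 : ℝ) ≤ w := by
    have : 0 < w := by exact_mod_cast hw0
    exact_mod_cast this
  have h3 := h2 (w ^ 2)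
  have h4 : √(Real.log ((X : ℝ) ^ (w ^ 2))) = w * lX := by
    rw [Real.log_pow]
    push_cast
    rw [Real.sqrt_mul (by positivity), Real.sqrt_sq (by positivity)]
  rw [h4] at h3
  have h5 : (2 : ℝ) ^ (w ^ 2) = Real.exp ((w : ℝ) ^ 2 * Real.log 2) := by
    rw [mul_comm, Real.exp_mul, Real.exp_log (by norm_num)]
    exact_mod_cast rfl
  rw [h5, ← Real.exp_add] at h3
  have h6 : (w : ℝ) ^ 2 * Real.log 2 + -4 * (w * lX) ≤ Real.log (1 + K) := by
    rw [← Real.log_exp ((w : ℝ) ^ 2 * Real.log 2 + -4 * (w * lX))]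
    exact Real.log_le_log (Real.exp_pos _) h3
  nlinarith

theorem no_near (hr : Good r) {i j R : ℕ} (hi : 1 ≤ i) (hij : i < j)
    (h : ∀ u ∈ U r, R ≤ u → ∃ v ∈ U r, i * u ≤ j * v + R ∧ j * v ≤ i * u + R) : False := by
  obtain ⟨X, K, hX, hK⟩ := recursion hr hi hij h
  exact no_recursion hr X K hX hK

end Pool.Agent.helper49.GP
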