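import Mathlib
import Pool.Agent.helper49.GP.Chain

set_option autoImplicit false

namespace Pool.Agent.helper49.GP

open Finset

open Classical in
/-- The indicator. -/
noncomputable def χ (A : Set ℕ) (n : ℕ) : ℝ := if n ∈ A then 1 else 0

lemma χ_nonneg (A : Set ℕ) (n : ℕ) : 0 ≤ χ A n := by
  unfold χ
  split_ifs <;> norm_num

lemma χ_le (A : Set ℕ) (n : ℕ) : χ A n ≤ 1 := by
  unfold χ
  split_ifs <;> norm_num

lemma χ_mem {A : Set ℕ} {n : ℕ} (h : n ∈ A) : χ A n = 1 := if_pos h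

lemma χ_notMem {A : Set ℕ} {n : ℕ} (h : n ∉ A) : χ A n = 0 := if_neg h

lemma χ_int (A : Set ℕ) (n : ℕ) : ∃ z : ℤ, χ A n = z := by
  unfold χ
  split_ifs
  · exact ⟨1, by norm_num⟩
  · exact ⟨0, by norm_num⟩

/-- The tails of the expansion. -/
noncomputable def t (q : ℝ) (A : Set ℕ) (N : ℕ) : ℝ := ∑' k : ℕ, χ A (N + 1 + k) * q ^ (k + 1)

variable {q : ℝ} {r : ℕ → ℕ}

lemma summ (hq0 : 0 ≤ q) (hq1 : q ≤ 1 / 2) (A : Set ℕ) (N : ℕ) :
    Summable fun k : ℕ => χ A (N + 1 + k) * q ^ (k + 1) := by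
  have h1 : Summable fun k : ℕ => q ^ (k + 1) :=
    (summable_nat_add_iff 1).mpr (summable_geometric_of_lt_one hq0 (by linarith))
  refine Summable.of_nonneg_of_le (fun k => mul_nonneg (χ_nonneg _ _) (by positivity)) (fun k => ?_) h1
  have h2 : (0 : ℝ) ≤ q ^ (k + 1) := by positivity
  nlinarith [χ_le A (N + 1 + k)]

lemma t_nonneg (hq0 : 0 ≤ q) (A : Set ℕ) (N : ℕ) : 0 ≤ t q A N :=
  tsum_nonneg fun k => mul_nonneg (χ_nonneg _ _) (by positivity)

lemma t_rec (hq0 : 0 ≤ q) (hq1 : q ≤ 1 / 2) (A : Set ℕ) (N : ℕ) :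
    t q A N = q * (χ A (N + 1) + t q A (N + 1)) := by
  unfold t
  rw [(summ hq0 hq1 A N).tsum_eq_zero_add, mul_add, ← tsum_mul_left]
  congr 1
  · rw [add_zero, zero_add, pow_one, mul_comm]
  · refine tsum_congr fun k => ?_
    rw [show N + 1 + (k + 1) = N + 1 + 1 + k by ring]
    ring

lemma t_le (hq0 : 0 ≤ q) (hq1 : q ≤ 1 / 2) (A : Set ℕ) (N : ℕ) : t q A N ≤ 1 := by
  have h1 : t q A N ≤ ∑' k : ℕ, q * q ^ k := by
    refine (summ hq0 hq1 A N).tsum_le_tsum (fun k => ?_)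
      ((summable_geometric_of_lt_one hq0 (by linarith)).mul_left q)
    have h2 : (0 : ℝ) ≤ q ^ (k + 1) := by positivity
    rw [show q * q ^ k = q ^ (k + 1) by ring]
    nlinarith [χ_le A (N + 1 + k)]
  rw [tsum_mul_left, tsum_geometric_of_lt_one hq0 (by linarith)] at h1
  refine h1.trans ?_
  rw [← div_eq_mul_inv, div_le_one (by linarith)]
  linarith

lemma t_gap (hq0 : 0 ≤ q) (hq1 : q ≤ 1 / 2) (A : Set ℕ) (N R : ℕ)
    (h : ∀ n, N < n → n ≤ N + R → n ∉ A) : t q A N = q ^ R * t q A (N + R) := by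
  induction R with
  | zero => simp
  | succ R ih =>
    rw [ih fun n h1 h2 => h n h1 (by omega), t_rec hq0 hq1 A (N + R),
      χ_notMem (h (N + R + 1) (by omega) (by omega)), zero_add, pow_succ,
      show N + (R + 1) = N + R + 1 by ring]
    ring

lemma t_lower (hq0 : 0 ≤ q) (hq1 : q ≤ 1 / 2) (A : Set ℕ) (N n : ℕ) (hn : n ∈ A) (hN : N < n) :
    q ^ (n - N) ≤ t q A N := by
  have h1 := (summ hq0 hq1 A N).le_tsum (n - N - 1)
    (fun k _ => mul_nonneg (χ_nonneg _ _) (by positivity))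
  rw [show N + 1 + (n - N - 1) = n by omega, χ_mem hn, one_mul,
    show n - N - 1 + 1 = n - N by omega] at h1
  exact h1

lemma t_int {s : ℕ} (hs : 2 ≤ s) (A B : Set ℕ) (a b c : ℤ)
    (h : (a : ℝ) * t (1 / s) A 0 + b * t (1 / s) B 0 = c) (N : ℕ) :
    ∃ z : ℤ, (a : ℝ) * t (1 / s) A N + b * t (1 / s) B N = z := by
  have hs0 : (0 : ℝ) < s := by
    have : 0 < s := by omega
    exact_mod_cast this
  have hs2 : (2 : ℝ) ≤ s := by exact_mod_cast hs
  have hq0 : (0 : ℝ) ≤ 1 / s := by positivity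
  have hq1 : (1 : ℝ) / s ≤ 1 / 2 := one_div_le_one_div_of_le (by norm_num) hs2
  induction N with
  | zero => exact ⟨c, h⟩
  | succ N ih =>
    obtain ⟨z, hz⟩ := ih
    obtain ⟨x, hx⟩ := χ_int A (N + 1)
    obtain ⟨y, hy⟩ := χ_int B (N + 1)
    rw [t_rec hq0 hq1 A N, t_rec hq0 hq1 B N, hx, hy] at hz
    refine ⟨s * z - a * x - b * y, ?_⟩
    push_cast
    rw [← hz]
    field_simp
    ring

open Classical in
/-- Long gaps exist in all windows of bounded length. -/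
lemma exists_gap (hr : Good r) (A : Set ℕ) (hA : ∀ N L, ((Ioc N (N + L)).filter (· ∈ A)).card ≤ r L) (g : ℕ) :
    ∃ L₀ : ℕ, ∀ N, ∃ N', N ≤ N' ∧ N' ≤ N + L₀ ∧ ∀ n, N' < n → n ≤ N' + g → n ∉ A := by
  obtain ⟨n₀, hn₀⟩ := hr.roth (2 * (g + 1))
  set M := n₀ + 1 with hM
  have hr : r ((g + 1) * M) < M := by
    have h1 := hn₀ ((g + 1) * M) (by nlinarith)
    have h2 : (g + 1) * (2 * r ((g + 1) * M)) ≤ (g + 1) * M := by
      calc (g + 1) * (2 * r ((g + 1) * M)) = 2 * (g + 1) * r ((g + 1) * M) := by ring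
        _ ≤ _ := h1
    have h3 := Nat.le_of_mul_le_mul_left h2 (by omega)
    omega
  refine ⟨(g + 1) * M, fun N => ?_⟩
  by_contra hcon
  push Not at hcon
  have h1 : ∀ k : ℕ, ∃ n, k < M → n ∈ A ∧ N + (g + 1) * k < n ∧ n ≤ N + (g + 1) * k + (g + 1) := by
    intro k
    by_cases hk : k < M
    · obtain ⟨n, h2, h3, h4⟩ := hcon (N + (g + 1) * k) (by omega) (by
        have : (g + 1) * k ≤ (g + 1) * M := Nat.mul_le_mul_left _ hk.le
        omega)
      exact ⟨n, fun _ => ⟨h4, h2, by omega⟩⟩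
    · exact ⟨0, fun h => absurd h hk⟩
  choose f hf using h1
  have h2 : (range M).card ≤ ((Ioc N (N + (g + 1) * M)).filter (· ∈ A)).card := by
    refine card_le_card_of_injOn f ?_ ?_
    · intro k hk
      rw [coe_range, Set.mem_Iio] at hk
      obtain ⟨h3, h4, h5⟩ := hf k hk
      have h6 : (g + 1) * k + (g + 1) ≤ (g + 1) * M := by
        calc (g + 1) * k + (g + 1) = (g + 1) * (k + 1) := by ring
          _ ≤ _ := Nat.mul_le_mul_left _ hk
      simp only [coe_filter, mem_Ioc, Set.mem_setOf_eq]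
      exact ⟨⟨by omega, by omega⟩, h3⟩
    · intro k hk l hl hkl
      rw [coe_range, Set.mem_Iio] at hk hl
      obtain ⟨_, h4, h5⟩ := hf k hk
      obtain ⟨_, h6, h7⟩ := hf l hl
      rw [hkl] at h4 h5
      rcases lt_trichotomy k l with h8 | h8 | h8
      · have h9 : (g + 1) * k + (g + 1) ≤ (g + 1) * l := by
          calc (g + 1) * k + (g + 1) = (g + 1) * (k + 1) := by ring
            _ ≤ _ := Nat.mul_le_mul_left _ h8
        omega
      · exact h8
      · have h9 : (g + 1) * l + (g + 1) ≤ (g + 1) * k := by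
          calc (g + 1) * l + (g + 1) = (g + 1) * (l + 1) := by ring
            _ ≤ _ := Nat.mul_le_mul_left _ h8
        omega
  rw [card_range] at h2
  have h3 := hA N ((g + 1) * M)
  omega

/-- A linear relation forces every element of `A` to be near an element of `B`. -/
lemma near (hr : Good r) {s : ℕ} (hs : 2 ≤ s) (A B : Set ℕ)
    (hA : ∀ N L, (letI := Classical.decPred (· ∈ A); ((Ioc N (N + L)).filter (· ∈ A)).card) ≤ r L)
    (a b c : ℤ) (ha : a ≠ 0) (h : (a : ℝ) * t (1 / s) A 0 + b * t (1 / s) B 0 = c) :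
    ∃ R : ℕ, ∀ n ∈ A, R ≤ n → ∃ m ∈ B, m ≤ n + R ∧ n ≤ m + R := by
  have hs0 : (0 : ℝ) < s := by
    have : 0 < s := by omega
    exact_mod_cast this
  have hs2 : (2 : ℝ) ≤ s := by exact_mod_cast hs
  have hq0 : (0 : ℝ) < 1 / s := by positivity
  have hq1 : (1 : ℝ) / s ≤ 1 / 2 := one_div_le_one_div_of_le (by norm_num) hs2
  have hint := t_int hs A B a b c h
  set q : ℝ := 1 / s with hq
  obtain ⟨g, hg⟩ : ∃ g : ℕ, |(a : ℝ)| + |(b : ℝ)| < 2 ^ g := pow_unbounded_of_one_lt _ (by norm_num)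
  have ha1 : (1 : ℝ) ≤ |(a : ℝ)| := by exact_mod_cast Int.one_le_abs ha
  have hb0 : (0 : ℝ) ≤ |(b : ℝ)| := abs_nonneg _
  obtain ⟨L₀, hL₀⟩ := exists_gap hr A (fun N L => hA N L) (g + 1)
  have hpow : ∀ k : ℕ, q ^ k ≤ (1 / 2) ^ k := fun k => pow_le_pow_left₀ hq0.le hq1 k
  have h2g : (2 : ℝ) ^ g * (1 / 2) ^ (g + 1) = 1 / 2 := by
    rw [pow_succ, ← mul_assoc, ← mul_pow]
    norm_num
  refine ⟨L₀ + g + 3, fun n hn hnR => ?_⟩
  by_contra hcon
  push Not at hcon
  -- the window without elements of `B`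
  set N := n - L₀ - 1 with hN
  have hwin : ∀ m, N < m → m ≤ n + (g + 1) → m ∉ B := by
    intro m h1 h2 hm
    have h3 := hcon m hm (by omega)
    omega
  obtain ⟨N', h1, h2, h3⟩ := hL₀ N
  have hN'n : N' < n := by omega
  have htA : t q A N' ≤ q ^ (g + 1) := by
    rw [t_gap hq0.le hq1 A N' (g + 1) h3]
    have h4 := t_le hq0.le hq1 A (N' + (g + 1))
    have h5 : (0 : ℝ) ≤ q ^ (g + 1) := by positivity
    nlinarith
  set D := n - N' with hD
  have hD1 : 1 ≤ D := by omega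
  have htB : t q B N' ≤ q ^ (D + (g + 1)) := by
    rw [t_gap hq0.le hq1 B N' (D + (g + 1)) (fun m h4 h5 => hwin m (by omega) (by omega))]
    have h4 := t_le hq0.le hq1 B (N' + (D + (g + 1)))
    have h5 : (0 : ℝ) ≤ q ^ (D + (g + 1)) := by positivity
    nlinarith
  have htB' : t q B N' ≤ q ^ (g + 1) := by
    refine htB.trans ?_
    exact pow_le_pow_of_le_one hq0.le (by linarith) (by omega)
  have hA0 := t_nonneg hq0.le A N'
  have hB0 := t_nonneg hq0.le B N'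
  -- the integer is zero
  obtain ⟨z, hz⟩ := hint N'
  have hz0 : z = 0 := by
    have h4 : |(z : ℝ)| < 1 := by
      rw [← hz]
      calc |(a : ℝ) * t q A N' + b * t q B N'| ≤ |(a : ℝ) * t q A N'| + |(b : ℝ) * t q B N'| := abs_add_le _ _
        _ = |(a : ℝ)| * t q A N' + |(b : ℝ)| * t q B N' := by
            rw [abs_mul, abs_mul, abs_of_nonneg hA0, abs_of_nonneg hB0]
        _ ≤ |(a : ℝ)| * q ^ (g + 1) + |(b : ℝ)| * q ^ (g + 1) := by gcongr
        _ = (|(a : ℝ)| + |(b : ℝ)|) * q ^ (g + 1) := by ring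
        _ ≤ 2 ^ g * (1 / 2) ^ (g + 1) := by
            have := hpow (g + 1)
            gcongr
        _ < 1 := by rw [h2g]; norm_num
    have h5 : |z| < 1 := by exact_mod_cast h4
    exact Int.abs_lt_one_iff.mp h5
  rw [hz0, Int.cast_zero] at hz
  have h4 : t q A N' ≤ |(b : ℝ)| * t q B N' := by
    have h5 : |(a : ℝ)| * t q A N' = |(b : ℝ)| * t q B N' := by
      have h6 : (a : ℝ) * t q A N' = -(b * t q B N') := by linarith
      have h7 := congrArg abs h6
      rwa [abs_neg, abs_mul, abs_mul, abs_of_nonneg hA0, abs_of_nonneg hB0] at h7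
    nlinarith
  have h5 := t_lower hq0.le hq1 A N' n hn hN'n
  rw [← hD] at h5
  have h6 : q ^ D ≤ q ^ D * (|(b : ℝ)| * q ^ (g + 1)) := by
    calc q ^ D ≤ |(b : ℝ)| * t q B N' := h5.trans h4
      _ ≤ |(b : ℝ)| * q ^ (D + (g + 1)) := by gcongr
      _ = _ := by rw [pow_add]; ring
  have h7 : |(b : ℝ)| * q ^ (g + 1) ≤ 1 / 2 := by
    rw [← h2g]
    have h8 : |(b : ℝ)| ≤ 2 ^ g := by linarith
    have := hpow (g + 1)
    gcongr
  have h8 : (0 : ℝ) < q ^ D := by positivity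
  nlinarith

end Pool.Agent.helper49.GP
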