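import Mathlib
import Pool.Agent.helper49.GP.Rk
import Pool.Agent.helper49.GP.Tail

set_option autoImplicit false

namespace Pool.Agent.helper49.GP

open Finset

/-- The full power series. -/
noncomputable def G (q : ℝ) (B : Set ℕ) : ℝ := ∑' n : ℕ, χ B n * q ^ n

lemma G_eq_t {q : ℝ} (hq0 : 0 ≤ q) (hq1 : q ≤ 1 / 2) (B : Set ℕ) (h0 : (0 : ℕ) ∉ B) :
    G q B = t q B 0 := by
  have h1 : Summable fun n : ℕ => χ B n * q ^ n := by
    rw [← summable_nat_add_iff 1]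
    have := summ hq0 hq1 B 0
    refine this.congr fun k => ?_
    rw [zero_add, add_comm 1 k]
  unfold G t
  rw [h1.tsum_eq_zero_add, χ_notMem h0, zero_mul, zero_add]
  refine tsum_congr fun k => ?_
  rw [zero_add, add_comm 1 k]

lemma G_scale {r : ℕ → ℕ} (q : ℝ) (i : ℕ) (hi : 1 ≤ i) : G q (A r i) = G (q ^ i) (U r) := by
  unfold G
  have hinj : Function.Injective (fun n : ℕ => i * n) := fun a b h => Nat.eq_of_mul_eq_mul_left (by omega) h
  rw [← hinj.tsum_eq (f := fun n : ℕ => χ (A r i) n * q ^ n)]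
  · refine tsum_congr fun n => ?_
    rw [← pow_mul]
    congr 1
    by_cases hn : n ∈ U r
    · have h3 : i * n ∈ A r i := ⟨n, hn, rfl⟩
      rw [χ_mem hn, χ_mem h3]
    · rw [χ_notMem hn, χ_notMem]
      rintro ⟨v, hv, h1⟩
      have : n = v := hinj h1
      exact hn (this ▸ hv)
  · intro n hn
    rw [Function.mem_support] at hn
    have h1 : n ∈ A r i := by
      by_contra h2
      rw [χ_notMem h2, zero_mul] at hn
      exact hn rfl
    obtain ⟨v, -, rfl⟩ := h1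
    exact ⟨v, rfl⟩

/-- The enumeration of the jumps. -/
noncomputable def uu (r : ℕ → ℕ) (m : ℕ) : ℕ := sInf {L | 1 ≤ L ∧ r L = m}

lemma uu_spec {r : ℕ → ℕ} (hr : Good r) {m : ℕ} (hm : 1 ≤ m) : 1 ≤ uu r m ∧ r (uu r m) = m := by
  refine Nat.sInf_mem (s := {L | 1 ≤ L ∧ r L = m}) ?_
  classical
  obtain ⟨n, hn⟩ := hr.unb m
  have hex : ∃ L, m ≤ r L := ⟨n, hn.le⟩
  set L := Nat.find hex with hL
  have h1 : m ≤ r L := Nat.find_spec hex
  have hL0 : 1 ≤ L := by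
    by_contra h2
    have h3 : L = 0 := by omega
    rw [h3, hr.zero] at h1
    omega
  have h2 : ¬ m ≤ r (L - 1) := Nat.find_min hex (by omega)
  have h3 := hr.succ (L - 1)
  rw [show L - 1 + 1 = L by omega] at h3
  exact ⟨L, hL0, by omega⟩

lemma uu_mem {r : ℕ → ℕ} (hr : Good r) {m : ℕ} (hm : 1 ≤ m) : uu r m ∈ U r := by
  obtain ⟨h1, h2⟩ := uu_spec hr hm
  refine ⟨h1, ?_⟩
  by_contra h3
  push Not at h3
  have h4 := hr.mono (show uu r m - 1 ≤ uu r m by omega)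
  have h5 : r (uu r m - 1) = m := by omega
  rcases Nat.eq_zero_or_pos (uu r m - 1) with h6 | h6
  · rw [h6, hr.zero] at h5
    omega
  · have h7 : uu r m ≤ uu r m - 1 := Nat.sInf_le ⟨h6, h5⟩
    omega

lemma uu_surj {r : ℕ → ℕ} (hr : Good r) {n : ℕ} (hn : n ∈ U r) : uu r (r n) = n := by
  obtain ⟨h1, h2⟩ := hn
  obtain ⟨h3, h4⟩ := uu_spec hr (show 1 ≤ r n by omega)
  have h5 : uu r (r n) ≤ n := Nat.sInf_le ⟨h1, rfl⟩
  by_contra h6
  have h7 := hr.mono (show uu r (r n) ≤ n - 1 by omega)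
  omega

lemma G_uu {r : ℕ → ℕ} (hr : Good r) (s : ℝ) :
    ∑' m : ℕ, (s ^ uu r (m + 1))⁻¹ = G (1 / s) (U r) := by
  unfold G
  have hinj : Function.Injective (fun m : ℕ => uu r (m + 1)) := by
    intro a b h
    have h1 := (uu_spec hr (show 1 ≤ a + 1 by omega)).2
    have h2 := (uu_spec hr (show 1 ≤ b + 1 by omega)).2
    have h3 : uu r (a + 1) = uu r (b + 1) := h
    rw [h3] at h1
    omega
  rw [← hinj.tsum_eq (f := fun n : ℕ => χ (U r) n * (1 / s) ^ n)]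
  · refine tsum_congr fun m => ?_
    rw [χ_mem (uu_mem hr (by omega)), one_mul, one_div, inv_pow]
  · intro n hn
    rw [Function.mem_support] at hn
    have h1 : n ∈ U r := by
      by_contra h2
      rw [χ_notMem h2, zero_mul] at hn
      exact hn rfl
    refine ⟨r n - 1, ?_⟩
    have h2 : r n - 1 + 1 = r n := by
      have := h1.2
      omega
    change uu r (r n - 1 + 1) = n
    rw [h2, uu_surj hr h1]

/-- The series with base `s^i`. -/
lemma F_eq {r : ℕ → ℕ} (hr : Good r) {s i : ℕ} (hs : 2 ≤ s) (hi : 1 ≤ i) :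
    ∑' m : ℕ, ((((s ^ i : ℕ) : ℝ)) ^ uu r (m + 1))⁻¹ = t (1 / s) (A r i) 0 := by
  have hs2 : (2 : ℝ) ≤ s := by exact_mod_cast hs
  have hq0 : (0 : ℝ) ≤ 1 / s := by positivity
  have hq1 : (1 : ℝ) / s ≤ 1 / 2 := one_div_le_one_div_of_le (by norm_num) hs2
  rw [G_uu hr, ← G_eq_t hq0 hq1, G_scale _ i hi]
  · congr 1
    push_cast
    rw [one_div, one_div, inv_pow]
  · rintro ⟨v, hv, h0⟩
    have h1 := hv.1
    have h2 : 1 ≤ i * v := Nat.mul_pos hi h1
    omega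

lemma two_terms {r : ℕ → ℕ} (hr : Good r) {s i j : ℕ} (hs : 2 ≤ s) (hi : 1 ≤ i) (hij : i < j)
    (a b c : ℤ) (ha : a ≠ 0)
    (h : (a : ℝ) * t (1 / s) (A r i) 0 + b * t (1 / s) (A r j) 0 = c) : False := by
  obtain ⟨R, hR⟩ := near hr hs (A r i) (A r j) (fun N L => countA_le hr i hi N L) a b c ha h
  refine no_near hr hi hij (R := R) fun u hu huR => ?_
  obtain ⟨m, ⟨v, hv, rfl⟩, h1, h2⟩ := hR (i * u) ⟨u, hu, rfl⟩ (huR.trans (Nat.le_mul_of_pos_left u hi))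
  exact ⟨v, hv, h2, h1⟩

lemma one_term {r : ℕ → ℕ} (hr : Good r) {s j : ℕ} (hs : 2 ≤ s) (hj : 1 ≤ j)
    (b c : ℤ) (hb : b ≠ 0) (h : (b : ℝ) * t (1 / s) (A r j) 0 = c) : False := by
  obtain ⟨R, hR⟩ := near hr hs (A r j) ∅ (fun N L => countA_le hr j hj N L) b 0 c hb (by
    rw [h, Int.cast_zero, zero_mul, add_zero])
  obtain ⟨u, hu, huR⟩ := U_unbounded hr R
  obtain ⟨m, hm, -, -⟩ := hR (j * u) ⟨u, hu, rfl⟩ (huR.trans (Nat.le_mul_of_pos_left u hj))
  exact hm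

theorem indep {r : ℕ → ℕ} (hr : Good r) {s i j : ℕ} (hs : 2 ≤ s) (hi : 1 ≤ i) (hij : i < j) :
    LinearIndependent ℚ ![(1 : ℝ),
      (((s ^ i : ℕ) : ℝ) - 1) * ∑' m : ℕ, ((((s ^ i : ℕ) : ℝ)) ^ uu r (m + 1))⁻¹,
      (((s ^ j : ℕ) : ℝ) - 1) * ∑' m : ℕ, ((((s ^ j : ℕ) : ℝ)) ^ uu r (m + 1))⁻¹] := by
  rw [F_eq hr hs hi, F_eq hr hs (by omega : 1 ≤ j)]
  have hsi : ∀ l : ℕ, 1 ≤ l → ((s ^ l : ℕ) : ℤ) - 1 ≠ 0 := by
    intro l hl h0
    have h1 : 1 < s ^ l := Nat.one_lt_pow (by omega) (by omega)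
    have h2 : (1 : ℤ) < ((s ^ l : ℕ) : ℤ) := by exact_mod_cast h1
    omega
  rw [Fintype.linearIndependent_iff]
  intro g hg
  simp only [Fin.sum_univ_three, Matrix.cons_val_zero, Matrix.cons_val_one, Matrix.cons_val,
    Rat.smul_def, mul_one] at hg
  set Ti := t (1 / s) (A r i) 0 with hTi
  set Tj := t (1 / s) (A r j) 0 with hTj
  -- clear denominators
  obtain ⟨a, b, c, D, hD, h1, h2, h0⟩ : ∃ a b c D : ℤ, D ≠ 0 ∧ (D : ℚ) * g 1 = a ∧ (D : ℚ) * g 2 = b ∧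
      (D : ℚ) * g 0 = c := by
    refine ⟨(g 1).num * (g 0).den * (g 2).den, (g 2).num * (g 0).den * (g 1).den,
      (g 0).num * (g 1).den * (g 2).den, (g 0).den * (g 1).den * (g 2).den, ?_, ?_, ?_, ?_⟩
    · have e0 := (g 0).den_nz
      have e1 := (g 1).den_nz
      have e2 := (g 2).den_nz
      positivity
    · have := Rat.mul_den_eq_num (g 1)
      push_cast
      rw [← this]
      ring
    · have := Rat.mul_den_eq_num (g 2)
      push_cast
      rw [← this]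
      ring
    · have := Rat.mul_den_eq_num (g 0)
      push_cast
      rw [← this]
      ring
  have h1' : (D : ℝ) * g 1 = a := by exact_mod_cast h1
  have h2' : (D : ℝ) * g 2 = b := by exact_mod_cast h2
  have h0' : (D : ℝ) * g 0 = c := by exact_mod_cast h0
  have hrel : ((a * (((s ^ i : ℕ) : ℤ) - 1) : ℤ) : ℝ) * Ti + ((b * (((s ^ j : ℕ) : ℤ) - 1) : ℤ) : ℝ) * Tj =
      ((-c : ℤ) : ℝ) := by
    push_cast
    push_cast at hg
    rw [← h1', ← h2', ← h0']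
    linear_combination (D : ℝ) * hg
  have ha0 : a = 0 := by
    by_contra ha
    exact two_terms hr hs hi hij _ _ _ (mul_ne_zero ha (hsi i hi)) hrel
  have hb0 : b = 0 := by
    by_contra hb
    rw [ha0, zero_mul, Int.cast_zero, zero_mul, zero_add] at hrel
    exact one_term hr hs (by omega) _ _ (mul_ne_zero hb (hsi j (by omega))) hrel
  have hc0 : c = 0 := by
    rw [ha0, hb0, zero_mul, zero_mul, Int.cast_zero, zero_mul, zero_mul, zero_add] at hrel
    have h3 : (-c : ℤ) = 0 := by exact_mod_cast hrel.symm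
    omega
  have hDq : (D : ℚ) ≠ 0 := by exact_mod_cast hD
  have hg0 : g 0 = 0 := by
    rw [hc0, Int.cast_zero] at h0
    exact (mul_eq_zero.mp h0).resolve_left hDq
  have hg1 : g 1 = 0 := by
    rw [ha0, Int.cast_zero] at h1
    exact (mul_eq_zero.mp h1).resolve_left hDq
  have hg2 : g 2 = 0 := by
    rw [hb0, Int.cast_zero] at h2
    exact (mul_eq_zero.mp h2).resolve_left hDq
  intro l
  fin_cases l
  · exact hg0
  · exact hg1
  · exact hg2

theorem main (k : ℕ) (hk : 3 ≤ k)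
    (h : k = 3 ∨ Filter.Tendsto (fun L : ℕ => (rk k L : ℝ) / L) Filter.atTop (nhds 0))
    (s i j : ℕ) (hs : 2 ≤ s) (hi : 1 ≤ i) (hij : i < j) :
    LinearIndependent ℚ ![(1 : ℝ), dens k (s ^ i), dens k (s ^ j)] :=
  indep (good k hk h) hs hi hij

end Pool.Agent.helper49.GP
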