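import Mathlib
import Pool.Agent.helper49.GP.Chain

set_option autoImplicit false

namespace Pool.Agent.helper49.GP

open Finset

variable {r : ℕ → ℕ}

/-- Iterating an approximate dilation by `(p / q)^d`, `1 ≤ d ≤ J`. -/
lemma chain2 {p q J R : ℕ} (hq : 1 ≤ q) (hqp : q < p)
    (h : ∀ u ∈ U r, R ≤ u → ∃ d, 1 ≤ d ∧ d ≤ J ∧ ∃ v ∈ U r, q ^ d * u ≤ p ^ d * v + R ∧
      p ^ d * v ≤ q ^ d * u + R) (t : ℕ) :
    ∃ n₀ : ℕ, ∀ u ∈ U r, n₀ ≤ u → ∃ D, t ≤ D ∧ D ≤ t + J ∧ ∃ v ∈ U r,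
      q ^ D * u ≤ p ^ D * v + R * p ^ D ∧ p ^ D * v ≤ q ^ D * u + R * p ^ D := by
  induction t with
  | zero => exact ⟨0, fun u hu _ => ⟨0, le_rfl, by omega, u, hu, by simp, by simp⟩⟩
  | succ t ih =>
    obtain ⟨n₀, hn₀⟩ := ih
    refine ⟨max n₀ (2 * R * p ^ t), fun u hu hun => ?_⟩
    obtain ⟨D, hD1, hD2, v, hv, h1, h2⟩ := hn₀ u hu ((le_max_left _ _).trans hun)
    rcases Nat.lt_or_ge t D with hDt | hDt
    · exact ⟨D, hDt, by omega, v, hv, h1, h2⟩
    have hDe : D = t := by omega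
    subst hDe
    have hu2 : 2 * R * p ^ D ≤ u := (le_max_right _ _).trans hun
    have hj : 0 < p ^ D := pow_pos (by omega) D
    have hit : 1 ≤ q ^ D := Nat.one_le_pow _ _ hq
    have hvR : R ≤ v := by
      have h3 : u ≤ q ^ D * u := Nat.le_mul_of_pos_left u hit
      have h4 : R * p ^ D ≤ v * p ^ D := by nlinarith
      exact Nat.le_of_mul_le_mul_right h4 hj
    obtain ⟨d, hd1, hd2, w, hw, h3, h4⟩ := h v hv hvR
    have hpd : q ^ d + 1 ≤ p ^ d := Nat.pow_lt_pow_left hqp (by omega)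
    refine ⟨D + d, by omega, by omega, w, hw, ?_, ?_⟩
    · calc q ^ (D + d) * u = q ^ d * (q ^ D * u) := by ring
        _ ≤ q ^ d * (p ^ D * v + R * p ^ D) := Nat.mul_le_mul_left _ h1
        _ = p ^ D * (q ^ d * v) + R * p ^ D * q ^ d := by ring
        _ ≤ p ^ D * (p ^ d * w + R) + R * p ^ D * q ^ d := by gcongr
        _ = p ^ (D + d) * w + R * p ^ D * (q ^ d + 1) := by ring
        _ ≤ p ^ (D + d) * w + R * p ^ D * p ^ d := by gcongr
        _ = p ^ (D + d) * w + R * p ^ (D + d) := by ring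
    · calc p ^ (D + d) * w = p ^ D * (p ^ d * w) := by ring
        _ ≤ p ^ D * (q ^ d * v + R) := Nat.mul_le_mul_left _ h4
        _ = q ^ d * (p ^ D * v) + R * p ^ D := by ring
        _ ≤ q ^ d * (q ^ D * u + R * p ^ D) + R * p ^ D := by gcongr
        _ = q ^ (D + d) * u + R * p ^ D * (q ^ d + 1) := by ring
        _ ≤ q ^ (D + d) * u + R * p ^ D * p ^ d := by gcongr
        _ = q ^ (D + d) * u + R * p ^ (D + d) := by ring

/-- The recursive inequality. -/
lemma recursion2 (hr : Good r) {p q J R : ℕ} (hq : 1 ≤ q) (hqp : q < p)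
    (h : ∀ u ∈ U r, R ≤ u → ∃ d, 1 ≤ d ∧ d ≤ J ∧ ∃ v ∈ U r, q ^ d * u ≤ p ^ d * v + R ∧
      p ^ d * v ≤ q ^ d * u + R) :
    ∃ X K : ℕ, 4 ≤ X ∧ ∀ n : ℕ, 2 * r n ≤ K + X * r (n / X) := by
  classical
  set M := 2 * (R + 1) * p ^ J with hM
  have hp0 : 0 < p := by omega
  have hM0 : 0 < M := by positivity
  obtain ⟨y₀, hy₀⟩ := hr.roth (4 * (J + 1) * M)
  obtain ⟨t, ht⟩ := exists_pow hq hqp (max 4 y₀)
  obtain ⟨n₀, hn₀⟩ := chain2 hq hqp h t
  have hqt : 0 < q ^ t := pow_pos (by omega) t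
  have hpt : 0 < p ^ t := pow_pos (by omega) t
  set X := p ^ t / q ^ t with hX
  have hX1 : max 4 y₀ ≤ X := (Nat.le_div_iff_mul_le hqt).mpr ht
  have hX4 : 4 ≤ X := (le_max_left _ _).trans hX1
  have hXy : y₀ ≤ X := (le_max_right _ _).trans hX1
  have hXP : X * q ^ t ≤ p ^ t := Nat.div_mul_le_self _ _
  have hQX : p ^ t < (X + 1) * q ^ t := by
    have h1 := Nat.div_add_mod (p ^ t) (q ^ t)
    have h2 := Nat.mod_lt (p ^ t) hqt
    calc p ^ t = q ^ t * (p ^ t / q ^ t) + p ^ t % q ^ t := h1.symm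
      _ < q ^ t * (p ^ t / q ^ t) + q ^ t := Nat.add_lt_add_left h2 _
      _ = (X + 1) * q ^ t := by rw [hX]; ring
  set E := t + J with hE
  have hqE : 0 < q ^ E := pow_pos (by omega) E
  set L := 2 * R * p ^ E / q ^ E with hLdef
  -- the length of the fibres
  have hL : 2 * (J + 1) * r (L + 1) ≤ X := by
    have h1 : L + 1 ≤ M * (X + 1) := by
      have h2 : L ≤ 2 * R * p ^ J * (X + 1) := by
        rw [hLdef, Nat.div_le_iff_le_mul_add_pred hqE]
        have h3 : 2 * R * p ^ E ≤ 2 * R * p ^ J * (X + 1) * q ^ E := by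
          calc 2 * R * p ^ E = 2 * R * p ^ J * p ^ t := by rw [hE, pow_add]; ring
            _ ≤ 2 * R * p ^ J * ((X + 1) * q ^ t) := Nat.mul_le_mul_left _ hQX.le
            _ = 2 * R * p ^ J * (X + 1) * q ^ t := by ring
            _ ≤ 2 * R * p ^ J * (X + 1) * q ^ E :=
              Nat.mul_le_mul_left _ (Nat.pow_le_pow_right hq (by omega))
        calc 2 * R * p ^ E ≤ 2 * R * p ^ J * (X + 1) * q ^ E := h3
          _ = q ^ E * (2 * R * p ^ J * (X + 1)) := by ring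
          _ ≤ _ := Nat.le_add_right _ _
      have h4 : 1 ≤ p ^ J * (X + 1) := Nat.mul_pos (pow_pos hp0 J) (by omega)
      calc L + 1 ≤ 2 * R * p ^ J * (X + 1) + 2 * (p ^ J * (X + 1)) := by omega
        _ = M * (X + 1) := by rw [hM]; ring
    have h3 := hr.mono h1
    have h4 := hy₀ (M * (X + 1)) (by nlinarith)
    have h5 : 4 * (J + 1) * r (M * (X + 1)) ≤ X + 1 := by
      have h6 : M * (4 * (J + 1) * r (M * (X + 1))) ≤ M * (X + 1) := by
        calc M * (4 * (J + 1) * r (M * (X + 1))) = 4 * (J + 1) * M * r (M * (X + 1)) := by ring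
          _ ≤ _ := h4
      exact Nat.le_of_mul_le_mul_left h6 hM0
    have h6 : 4 * (J + 1) * r (L + 1) ≤ 4 * (J + 1) * r (M * (X + 1)) := Nat.mul_le_mul_left _ h3
    have h7 : 2 * (2 * (J + 1) * r (L + 1)) ≤ X + 1 := by
      calc 2 * (2 * (J + 1) * r (L + 1)) = 4 * (J + 1) * r (L + 1) := by ring
        _ ≤ _ := h6.trans h5
    omega
  refine ⟨X, 2 * n₀ + R * X, hX4, fun n => ?_⟩
  -- the elements of `U` up to `n`
  set S := ((Ioc n₀ (n₀ + n)).filter (· ∈ U r)).filter (· ≤ n) with hS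
  have hcount : r n ≤ n₀ + S.card := by
    have h1 := count hr 0 n
    rw [zero_add, hr.zero, add_zero] at h1
    rw [← h1]
    have h2 : (Ioc 0 n).filter (· ∈ U r) ⊆ Ioc 0 n₀ ∪ S := by
      intro x hx
      rw [mem_filter, mem_Ioc] at hx
      rw [mem_union, mem_Ioc, hS, mem_filter, mem_filter, mem_Ioc]
      rcases le_or_gt x n₀ with h3 | h3
      · exact Or.inl ⟨hx.1.1, h3⟩
      · exact Or.inr ⟨⟨⟨h3, by omega⟩, hx.2⟩, hx.1.2⟩
    calc _ ≤ (Ioc 0 n₀ ∪ S).card := card_le_card h2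
      _ ≤ (Ioc 0 n₀).card + S.card := card_union_le _ _
      _ = n₀ + S.card := by rw [Nat.card_Ioc, Nat.sub_zero]
  have hex : ∀ u : ℕ, ∃ w : ℕ × ℕ, u ∈ S → t ≤ w.1 ∧ w.1 ≤ t + J ∧ w.2 ∈ U r ∧
      q ^ w.1 * u ≤ p ^ w.1 * w.2 + R * p ^ w.1 ∧ p ^ w.1 * w.2 ≤ q ^ w.1 * u + R * p ^ w.1 := by
    intro u
    by_cases hu : u ∈ S
    · rw [hS, mem_filter, mem_filter, mem_Ioc] at hu
      obtain ⟨D, hD1, hD2, v, hv, h1, h2⟩ := hn₀ u hu.1.2 hu.1.1.1.le
      exact ⟨(D, v), fun _ => ⟨hD1, hD2, hv, h1, h2⟩⟩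
    · exact ⟨(0, 0), fun h => absurd h hu⟩
  choose f hf using hex
  set V := (Ioc 0 (0 + (n / X + R))).filter (· ∈ U r) with hV
  have hmaps : ∀ u ∈ S, f u ∈ (Icc t (t + J)) ×ˢ V := by
    intro u hu
    obtain ⟨hD1, hD2, hv, h1, h2⟩ := hf u hu
    rw [mem_product, mem_Icc, hV, mem_filter, mem_Ioc]
    refine ⟨⟨hD1, hD2⟩, ⟨hv.1, ?_⟩, hv⟩
    have hun : u ≤ n := by
      rw [hS, mem_filter] at hu
      exact hu.2
    set D := (f u).1 with hD
    set v := (f u).2 with hvdef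
    have hqD : 0 < q ^ D := pow_pos (by omega) D
    have hXD : X * q ^ D ≤ p ^ D := by
      obtain ⟨e, he⟩ := Nat.exists_eq_add_of_le hD1
      rw [he, pow_add, pow_add]
      calc X * (q ^ t * q ^ e) = (X * q ^ t) * q ^ e := by ring
        _ ≤ p ^ t * p ^ e := Nat.mul_le_mul hXP (Nat.pow_le_pow_left hqp.le e)
    have h3 : p ^ D * (v - R) ≤ q ^ D * n := by
      have h4 : p ^ D * v ≤ q ^ D * n + p ^ D * R := by
        calc p ^ D * v ≤ q ^ D * u + R * p ^ D := h2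
          _ ≤ q ^ D * n + R * p ^ D := by gcongr
          _ = q ^ D * n + p ^ D * R := by ring
      rw [Nat.mul_sub]
      exact tsub_le_iff_right.mpr h4
    have h5 : (v - R) * X ≤ n := by
      have h6 : q ^ D * ((v - R) * X) ≤ q ^ D * n := by
        calc q ^ D * ((v - R) * X) = (X * q ^ D) * (v - R) := by ring
          _ ≤ p ^ D * (v - R) := Nat.mul_le_mul_right _ hXD
          _ ≤ q ^ D * n := h3
      exact Nat.le_of_mul_le_mul_left h6 hqD
    have h7 : v - R ≤ n / X := (Nat.le_div_iff_mul_le (by omega)).mpr h5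
    have h8 : v ≤ n / X + R := tsub_le_iff_right.mp h7
    rw [zero_add]
    exact h8
  have hfib : ∀ b ∈ (Icc t (t + J)) ×ˢ V, (S.filter (fun a => f a = b)).card ≤ r (L + 1) := by
    intro b hb
    rw [mem_product, mem_Icc] at hb
    refine card_le_of_diam hr _ ?_ _ ?_
    · intro x hx
      rw [mem_filter, hS, mem_filter, mem_filter] at hx
      exact hx.1.1.2
    · intro x hx y hy
      rw [mem_filter] at hx hy
      obtain ⟨_, _, _, h1, h2⟩ := hf x hx.1
      obtain ⟨_, _, _, h3, h4⟩ := hf y hy.1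
      rw [hx.2] at h1 h2
      rw [hy.2] at h3 h4
      set D := b.1 with hD
      rcases le_or_gt y x with h5 | h5
      · exact h5.trans (Nat.le_add_right _ _)
      · have h6 : q ^ D * (y - x) ≤ 2 * R * p ^ D := by
          have h7 : q ^ D * y ≤ q ^ D * x + 2 * R * p ^ D := by nlinarith
          rw [Nat.mul_sub]
          exact tsub_le_iff_left.mpr h7
        have h7 : q ^ E * (y - x) ≤ 2 * R * p ^ E := by
          obtain ⟨e, he⟩ := Nat.exists_eq_add_of_le hb.1.2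
          have h8 : E = D + e := by rw [hE, hD]; exact he
          rw [h8, pow_add, pow_add]
          calc q ^ D * q ^ e * (y - x) = (q ^ D * (y - x)) * q ^ e := by ring
            _ ≤ (2 * R * p ^ D) * p ^ e := Nat.mul_le_mul h6 (Nat.pow_le_pow_left hqp.le e)
            _ = 2 * R * (p ^ D * p ^ e) := by ring
        have h8 : y - x ≤ L := by
          rw [hLdef]
          exact (Nat.le_div_iff_mul_le hqE).mpr (by rw [mul_comm]; exact h7)
        exact tsub_le_iff_left.mp h8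
  have hcard := card_le_mul_card_image_of_maps_to hmaps _ hfib
  rw [card_product, Nat.card_Icc] at hcard
  have h7 : V.card ≤ r (n / X + R) := count_le hr 0 (n / X + R)
  have h8 := hr.add (n / X) R
  have h9 := hr.le R
  have h10 : V.card ≤ r (n / X) + R := by omega
  have h11 : 2 * S.card ≤ X * (r (n / X) + R) := by
    calc 2 * S.card ≤ 2 * (r (L + 1) * ((t + J + 1 - t) * V.card)) := Nat.mul_le_mul_left _ hcard
      _ = (2 * (J + 1) * r (L + 1)) * V.card := by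
          rw [show t + J + 1 - t = J + 1 by omega]; ring
      _ ≤ X * (r (n / X) + R) := Nat.mul_le_mul hL h10
  nlinarith

theorem no_near2 (hr : Good r) {p q J R : ℕ} (hq : 1 ≤ q) (hqp : q < p)
    (h : ∀ u ∈ U r, R ≤ u → ∃ d, 1 ≤ d ∧ d ≤ J ∧ ∃ v ∈ U r, q ^ d * u ≤ p ^ d * v + R ∧
      p ^ d * v ≤ q ^ d * u + R) : False := by
  obtain ⟨X, K, hX, hK⟩ := recursion2 hr hq hqp h
  exact no_recursion hr X K hX hK

end Pool.Agent.helper49.GP
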