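import Mathlib
import Pool.Agent.helper49.GP.Tail
import Pool.Agent.helper49.GP.Chain2

set_option autoImplicit false

namespace Pool.Agent.helper49.GP

open Finset

variable {r : ℕ → ℕ}

lemma t_int2 {s : ℕ} (hs : 2 ≤ s) {ι : Type} [Fintype ι] (A : Set ℕ) (B : ι → Set ℕ) (a : ℤ)
    (b : ι → ℤ) (c : ℤ)
    (h : (a : ℝ) * t (1 / s) A 0 + ∑ l, (b l : ℝ) * t (1 / s) (B l) 0 = c) (N : ℕ) :
    ∃ z : ℤ, (a : ℝ) * t (1 / s) A N + ∑ l, (b l : ℝ) * t (1 / s) (B l) N = z := by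
  have hs0 : (0 : ℝ) < s := by
    have : 0 < s := by omega
    exact_mod_cast this
  have hs2 : (2 : ℝ) ≤ s := by exact_mod_cast hs
  have hq0 : (0 : ℝ) ≤ 1 / s := by positivity
  have hq1 : (1 : ℝ) / s ≤ 1 / 2 := one_div_le_one_div_of_le (by norm_num) hs2
  induction N with
  | zero => exact ⟨c, h⟩
  | succ N ih =>
    obtain ⟨z, hz⟩ := ih
    obtain ⟨x, hx⟩ := χ_int A (N + 1)
    choose y hy using fun l => χ_int (B l) (N + 1)
    have hA : t (1 / s) A (N + 1) = s * t (1 / s) A N - x := by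
      rw [t_rec hq0 hq1 A N, hx]
      field_simp
      ring
    have hB : ∀ l, t (1 / s) (B l) (N + 1) = s * t (1 / s) (B l) N - y l := by
      intro l
      rw [t_rec hq0 hq1 (B l) N, hy l]
      field_simp
      ring
    refine ⟨s * z - a * x - ∑ l, b l * y l, ?_⟩
    push_cast
    rw [← hz, hA]
    have h1 : ∑ l, (b l : ℝ) * t (1 / s) (B l) (N + 1) =
        s * ∑ l, (b l : ℝ) * t (1 / s) (B l) N - ∑ l, (b l : ℝ) * y l := by
      rw [Finset.mul_sum, ← Finset.sum_sub_distrib]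
      refine Finset.sum_congr rfl fun l _ => ?_
      rw [hB l]
      ring
    rw [h1]
    ring

/-- A linear relation forces every element of `A` to be near an element of some `B l`. -/
lemma near2 (hr : Good r) {s : ℕ} (hs : 2 ≤ s) {ι : Type} [Fintype ι] (A : Set ℕ) (B : ι → Set ℕ)
    (hA : ∀ N L, (letI := Classical.decPred (· ∈ A); ((Ioc N (N + L)).filter (· ∈ A)).card) ≤ r L)
    (a : ℤ) (b : ι → ℤ) (c : ℤ) (ha : a ≠ 0)
    (h : (a : ℝ) * t (1 / s) A 0 + ∑ l, (b l : ℝ) * t (1 / s) (B l) 0 = c) :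
    ∃ R : ℕ, ∀ n ∈ A, R ≤ n → ∃ l, ∃ m ∈ B l, m ≤ n + R ∧ n ≤ m + R := by
  have hs0 : (0 : ℝ) < s := by
    have : 0 < s := by omega
    exact_mod_cast this
  have hs2 : (2 : ℝ) ≤ s := by exact_mod_cast hs
  have hq0 : (0 : ℝ) < 1 / s := by positivity
  have hq1 : (1 : ℝ) / s ≤ 1 / 2 := one_div_le_one_div_of_le (by norm_num) hs2
  have hint := t_int2 hs A B a b c h
  set q : ℝ := 1 / s with hq
  set β : ℝ := ∑ l, |(b l : ℝ)| with hβ
  obtain ⟨g, hg⟩ : ∃ g : ℕ, |(a : ℝ)| + β < 2 ^ g := pow_unbounded_of_one_lt _ (by norm_num)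
  have ha1 : (1 : ℝ) ≤ |(a : ℝ)| := by exact_mod_cast Int.one_le_abs ha
  have hb0 : (0 : ℝ) ≤ β := Finset.sum_nonneg fun l _ => abs_nonneg _
  obtain ⟨L₀, hL₀⟩ := exists_gap hr A (fun N L => hA N L) (g + 1)
  have hpow : ∀ k : ℕ, q ^ k ≤ (1 / 2) ^ k := fun k => pow_le_pow_left₀ hq0.le hq1 k
  have h2g : (2 : ℝ) ^ g * (1 / 2) ^ (g + 1) = 1 / 2 := by
    rw [pow_succ, ← mul_assoc, ← mul_pow]
    norm_num
  refine ⟨L₀ + g + 3, fun n hn hnR => ?_⟩
  by_contra hcon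
  push Not at hcon
  -- the window without elements of the `B l`
  set N := n - L₀ - 1 with hN
  have hwin : ∀ l, ∀ m, N < m → m ≤ n + (g + 1) → m ∉ B l := by
    intro l m h1 h2 hm
    have h3 := hcon l m hm (by omega)
    omega
  obtain ⟨N', h1, h2, h3⟩ := hL₀ N
  have hN'n : N' < n := by omega
  have htA : t q A N' ≤ q ^ (g + 1) := by
    rw [t_gap hq0.le hq1 A N' (g + 1) h3]
    have h4 := t_le hq0.le hq1 A (N' + (g + 1))
    have h5 : (0 : ℝ) ≤ q ^ (g + 1) := by positivity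
    nlinarith
  set D := n - N' with hD
  have hD1 : 1 ≤ D := by omega
  have htB : ∀ l, t q (B l) N' ≤ q ^ (D + (g + 1)) := by
    intro l
    rw [t_gap hq0.le hq1 (B l) N' (D + (g + 1)) (fun m h4 h5 => hwin l m (by omega) (by omega))]
    have h4 := t_le hq0.le hq1 (B l) (N' + (D + (g + 1)))
    have h5 : (0 : ℝ) ≤ q ^ (D + (g + 1)) := by positivity
    nlinarith
  have hA0 := t_nonneg hq0.le A N'
  have hB0 : ∀ l, 0 ≤ t q (B l) N' := fun l => t_nonneg hq0.le (B l) N'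
  have hsum : |∑ l, (b l : ℝ) * t q (B l) N'| ≤ β * q ^ (D + (g + 1)) := by
    refine (Finset.abs_sum_le_sum_abs _ _).trans ?_
    rw [hβ, Finset.sum_mul]
    refine Finset.sum_le_sum fun l _ => ?_
    rw [abs_mul, abs_of_nonneg (hB0 l)]
    exact mul_le_mul_of_nonneg_left (htB l) (abs_nonneg _)
  have hsum' : |∑ l, (b l : ℝ) * t q (B l) N'| ≤ β * q ^ (g + 1) := by
    refine hsum.trans ?_
    exact mul_le_mul_of_nonneg_left (pow_le_pow_of_le_one hq0.le (by linarith) (by omega)) hb0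
  -- the integer is zero
  obtain ⟨z, hz⟩ := hint N'
  have hz0 : z = 0 := by
    have h4 : |(z : ℝ)| < 1 := by
      rw [← hz]
      calc |(a : ℝ) * t q A N' + ∑ l, (b l : ℝ) * t q (B l) N'|
          ≤ |(a : ℝ) * t q A N'| + |∑ l, (b l : ℝ) * t q (B l) N'| := abs_add_le _ _
        _ ≤ |(a : ℝ)| * q ^ (g + 1) + β * q ^ (g + 1) := by
            rw [abs_mul, abs_of_nonneg hA0]
            have := mul_le_mul_of_nonneg_left htA (abs_nonneg (a : ℝ))
            linarith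
        _ = (|(a : ℝ)| + β) * q ^ (g + 1) := by ring
        _ ≤ 2 ^ g * (1 / 2) ^ (g + 1) := by
            have := hpow (g + 1)
            gcongr
        _ < 1 := by rw [h2g]; norm_num
    have h5 : |z| < 1 := by exact_mod_cast h4
    exact Int.abs_lt_one_iff.mp h5
  rw [hz0, Int.cast_zero] at hz
  have h4 : t q A N' ≤ β * q ^ (D + (g + 1)) := by
    have h5 : |(a : ℝ)| * t q A N' = |∑ l, (b l : ℝ) * t q (B l) N'| := by
      have h6 : (a : ℝ) * t q A N' = -(∑ l, (b l : ℝ) * t q (B l) N') := by linarith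
      have h7 := congrArg abs h6
      rwa [abs_neg, abs_mul, abs_of_nonneg hA0] at h7
    have h8 : t q A N' ≤ |(a : ℝ)| * t q A N' := by nlinarith
    linarith
  have h5 := t_lower hq0.le hq1 A N' n hn hN'n
  rw [← hD] at h5
  have h6 : q ^ D ≤ q ^ D * (β * q ^ (g + 1)) := by
    calc q ^ D ≤ β * q ^ (D + (g + 1)) := h5.trans h4
      _ = _ := by rw [pow_add]; ring
  have h7 : β * q ^ (g + 1) ≤ 1 / 2 := by
    rw [← h2g]
    have h8 : β ≤ 2 ^ g := by linarith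
    have := hpow (g + 1)
    gcongr
  have h8 : (0 : ℝ) < q ^ D := by positivity
  nlinarith

/-- No relation between the numbers with exponents `q^(J-n) p^n`. -/
lemma many_terms (hr : Good r) {s p q J : ℕ} (hs : 2 ≤ s) (hq : 1 ≤ q) (hqp : q < p)
    (a : Fin (J + 1) → ℤ) (c : ℤ) (hne : ∃ n, a n ≠ 0)
    (h : ∑ n : Fin (J + 1), (a n : ℝ) * t (1 / s) (A r (q ^ (J - n) * p ^ (n : ℕ))) 0 = c) : False := by
  classical
  -- the least index
  obtain ⟨n₀, hn₀, hmin⟩ : ∃ n₀, a n₀ ≠ 0 ∧ ∀ n, n < n₀ → a n = 0 := by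
    have hfin : (Finset.univ.filter fun n => a n ≠ 0).Nonempty := by
      obtain ⟨n, hn⟩ := hne
      exact ⟨n, by simp [hn]⟩
    refine ⟨(Finset.univ.filter fun n => a n ≠ 0).min' hfin, ?_, ?_⟩
    · have := Finset.min'_mem _ hfin
      rw [mem_filter] at this
      exact this.2
    · intro n hn
      by_contra hna
      have := Finset.min'_le (Finset.univ.filter fun n => a n ≠ 0) n (by simp [hna])
      exact absurd hn (not_lt.mpr this)
  have he : ∀ n : Fin (J + 1), 1 ≤ q ^ (J - n) * p ^ (n : ℕ) := fun n =>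
    Nat.mul_pos (pow_pos (by omega) _) (pow_pos (by omega) _)
  have hrel : (a n₀ : ℝ) * t (1 / s) (A r (q ^ (J - n₀) * p ^ (n₀ : ℕ))) 0 +
      ∑ n : Fin (J + 1), (((if n₀ < n then a n else 0 : ℤ)) : ℝ) *
        t (1 / s) (if n₀ < n then A r (q ^ (J - n) * p ^ (n : ℕ)) else ∅) 0 = c := by
    rw [← h]
    have h1 : (a n₀ : ℝ) * t (1 / s) (A r (q ^ (J - n₀) * p ^ (n₀ : ℕ))) 0 =
        ∑ n : Fin (J + 1), (if n = n₀ then (a n : ℝ) * t (1 / s) (A r (q ^ (J - n) * p ^ (n : ℕ))) 0 else 0) := by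
      rw [Finset.sum_ite_eq' Finset.univ n₀]
      simp
    rw [h1, ← Finset.sum_add_distrib]
    refine Finset.sum_congr rfl fun n _ => ?_
    rcases lt_trichotomy n n₀ with h2 | h2 | h2
    · rw [if_neg h2.ne, if_neg h2.not_gt, if_neg h2.not_gt, hmin n h2]
      simp
    · rw [if_pos h2, if_neg (by rw [h2]; exact lt_irrefl _)]
      simp
    · rw [if_neg h2.ne', if_pos h2, if_pos h2]
      simp
  obtain ⟨R, hR⟩ := near2 hr hs _ _ (fun N L => countA_le hr _ (he n₀) N L) (a n₀) _ c hn₀ hrel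
  refine no_near2 hr hq hqp (J := J) (R := R) fun u hu huR => ?_
  obtain ⟨n, m, hm, h1, h2⟩ := hR (q ^ (J - n₀) * p ^ (n₀ : ℕ) * u) ⟨u, hu, rfl⟩
    (huR.trans (Nat.le_mul_of_pos_left u (he n₀)))
  have hlt : n₀ < n := by
    by_contra h3
    rw [if_neg h3] at hm
    exact hm
  rw [if_pos hlt] at hm
  obtain ⟨v, hv, rfl⟩ := hm
  have hlt' : (n₀ : ℕ) < n := hlt
  have hnJ : (n : ℕ) < J + 1 := n.2
  set d := (n : ℕ) - n₀ with hd
  set G := q ^ (J - n) * p ^ (n₀ : ℕ) with hG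
  have hG0 : 1 ≤ G := Nat.mul_pos (pow_pos (by omega) _) (pow_pos (by omega) _)
  have e1 : q ^ (J - n₀) * p ^ (n₀ : ℕ) = G * q ^ d := by
    rw [hG, show J - (n₀ : ℕ) = (J - n) + d by omega, pow_add]
    ring
  have e2 : q ^ (J - n) * p ^ (n : ℕ) = G * p ^ d := by
    rw [hG]
    have : (n : ℕ) = n₀ + d := by omega
    calc q ^ (J - n) * p ^ (n : ℕ) = q ^ (J - n) * p ^ ((n₀ : ℕ) + d) := by rw [← this]
      _ = _ := by rw [pow_add]; ring
  rw [e1, e2] at h1 h2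
  refine ⟨d, by omega, by omega, v, hv, ?_, ?_⟩
  · have h3 : G * (q ^ d * u) ≤ G * (p ^ d * v + R) := by
      calc G * (q ^ d * u) = G * q ^ d * u := by ring
        _ ≤ G * p ^ d * v + R := h2
        _ ≤ G * p ^ d * v + G * R := Nat.add_le_add_left (Nat.le_mul_of_pos_left R hG0) _
        _ = _ := by ring
    exact Nat.le_of_mul_le_mul_left h3 hG0
  · have h3 : G * (p ^ d * v) ≤ G * (q ^ d * u + R) := by
      calc G * (p ^ d * v) = G * p ^ d * v := by ring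
        _ ≤ G * q ^ d * u + R := h1
        _ ≤ G * q ^ d * u + G * R := Nat.add_le_add_left (Nat.le_mul_of_pos_left R hG0) _
        _ = _ := by ring
    exact Nat.le_of_mul_le_mul_left h3 hG0

end Pool.Agent.helper49.GP
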