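import Mathlib
import Pool.Agent.helper49.GP.Main
import Pool.Agent.helper49.GP.Tail2

set_option autoImplicit false

namespace Pool.Agent.helper49.GP

open Finset

lemma clear_den {ι : Type} [Fintype ι] (g : ι → ℚ) :
    ∃ D : ℤ, D ≠ 0 ∧ ∃ z : ι → ℤ, ∀ o, (D : ℚ) * g o = z o := by
  classical
  refine ⟨∏ o, ((g o).den : ℤ), ?_, ?_⟩
  · exact Finset.prod_ne_zero_iff.mpr fun o _ => by exact_mod_cast (g o).den_nz
  · have h : ∀ o, ∃ z : ℤ, (((∏ o, ((g o).den : ℤ)) : ℤ) : ℚ) * g o = z := by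
      intro o
      obtain ⟨k, hk⟩ := Finset.dvd_prod_of_mem (fun o => ((g o).den : ℤ)) (Finset.mem_univ o)
      refine ⟨k * (g o).num, ?_⟩
      rw [hk]
      have := Rat.mul_den_eq_num (g o)
      push_cast
      rw [← this]
      ring
    choose z hz using h
    exact ⟨z, hz⟩

theorem indep2 {r : ℕ → ℕ} (hr : Good r) {s p q J : ℕ} (hs : 2 ≤ s) (hq : 1 ≤ q) (hqp : q < p) :
    LinearIndependent ℚ (fun o : Option (Fin (J + 1)) => o.elim (1 : ℝ)
      (fun n => (((s ^ (q ^ (J - n) * p ^ (n : ℕ)) : ℕ) : ℝ) - 1) *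
        ∑' m : ℕ, ((((s ^ (q ^ (J - n) * p ^ (n : ℕ)) : ℕ) : ℝ)) ^ uu r (m + 1))⁻¹)) := by
  have he : ∀ n : Fin (J + 1), 1 ≤ q ^ (J - n) * p ^ (n : ℕ) := fun n =>
    Nat.mul_pos (pow_pos (by omega) _) (pow_pos (by omega) _)
  have hsi : ∀ l : ℕ, 1 ≤ l → ((s ^ l : ℕ) : ℤ) - 1 ≠ 0 := by
    intro l hl h0
    have h1 : 1 < s ^ l := Nat.one_lt_pow (by omega) (by omega)
    have h2 : (1 : ℤ) < ((s ^ l : ℕ) : ℤ) := by exact_mod_cast h1
    omega
  rw [Fintype.linearIndependent_iff]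
  intro g hg
  rw [Fintype.sum_option] at hg
  simp only [Option.elim, Rat.smul_def, mul_one] at hg
  obtain ⟨D, hD, z, hz⟩ := clear_den g
  have hz' : ∀ o, (D : ℝ) * g o = z o := fun o => by exact_mod_cast hz o
  have hDq : (D : ℚ) ≠ 0 := by exact_mod_cast hD
  have hrel : ∑ n : Fin (J + 1), ((z (some n) * (((s ^ (q ^ (J - n) * p ^ (n : ℕ)) : ℕ) : ℤ) - 1) : ℤ) : ℝ) *
      t (1 / s) (A r (q ^ (J - n) * p ^ (n : ℕ))) 0 = ((-(z none) : ℤ) : ℝ) := by
    have h1 : ∑ n : Fin (J + 1), ((z (some n) * (((s ^ (q ^ (J - n) * p ^ (n : ℕ)) : ℕ) : ℤ) - 1) : ℤ) : ℝ) *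
        t (1 / s) (A r (q ^ (J - n) * p ^ (n : ℕ))) 0 =
        D * ∑ n : Fin (J + 1), (g (some n) : ℝ) * ((((s ^ (q ^ (J - n) * p ^ (n : ℕ)) : ℕ) : ℝ) - 1) *
          ∑' m : ℕ, ((((s ^ (q ^ (J - n) * p ^ (n : ℕ)) : ℕ) : ℝ)) ^ uu r (m + 1))⁻¹) := by
      rw [Finset.mul_sum]
      refine Finset.sum_congr rfl fun n _ => ?_
      rw [F_eq hr hs (he n)]
      push_cast
      rw [← hz' (some n)]
      ring
    rw [h1]
    have h2 : ∑ n : Fin (J + 1), (g (some n) : ℝ) * ((((s ^ (q ^ (J - n) * p ^ (n : ℕ)) : ℕ) : ℝ) - 1) *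
        ∑' m : ℕ, ((((s ^ (q ^ (J - n) * p ^ (n : ℕ)) : ℕ) : ℝ)) ^ uu r (m + 1))⁻¹) = -(g none : ℝ) := by
      linarith
    rw [h2]
    push_cast
    rw [← hz' none]
    ring
  have hall : ∀ n, z (some n) = 0 := by
    by_contra hne
    push Not at hne
    obtain ⟨n, hn⟩ := hne
    exact many_terms hr hs hq hqp (fun n => z (some n) * (((s ^ (q ^ (J - n) * p ^ (n : ℕ)) : ℕ) : ℤ) - 1))
      (-(z none)) ⟨n, mul_ne_zero hn (hsi _ (he n))⟩ hrel
  have hnone : z none = 0 := by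
    have h1 : ∀ n : Fin (J + 1), ((z (some n) * (((s ^ (q ^ (J - n) * p ^ (n : ℕ)) : ℕ) : ℤ) - 1) : ℤ) : ℝ) *
        t (1 / s) (A r (q ^ (J - n) * p ^ (n : ℕ))) 0 = 0 := by
      intro n
      rw [hall n]
      simp
    rw [Finset.sum_congr rfl fun n _ => h1 n, Finset.sum_const_zero] at hrel
    have h3 : (-(z none) : ℤ) = 0 := by exact_mod_cast hrel.symm
    omega
  intro o
  have ho : z o = 0 := by
    rcases o with _ | n
    · exact hnone
    · exact hall n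
  have h1 := hz o
  rw [ho, Int.cast_zero] at h1
  exact (mul_eq_zero.mp h1).resolve_left hDq

theorem main2 (k : ℕ) (hk : 3 ≤ k)
    (h : k = 3 ∨ Filter.Tendsto (fun L : ℕ => (rk k L : ℝ) / L) Filter.atTop (nhds 0))
    (s p q J : ℕ) (hs : 2 ≤ s) (hq : 1 ≤ q) (hqp : q < p) :
    LinearIndependent ℚ (fun o : Option (Fin (J + 1)) => o.elim (1 : ℝ)
      (fun n => dens k (s ^ (q ^ (J - n) * p ^ (n : ℕ))))) :=
  indep2 (good k hk h) hs hq hqp

/-- Numbers in a number field. -/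
theorem field_count (J : ℕ) (x : Fin (J + 1) → ℝ)
    (hx : LinearIndependent ℚ (fun o : Option (Fin (J + 1)) => o.elim (1 : ℝ) x))
    (K : IntermediateField ℚ ℝ) [FiniteDimensional ℚ K] :
    {n : Fin (J + 1) | x n ∈ K}.ncard < Module.finrank ℚ K := by
  classical
  set S : Set (Fin (J + 1)) := {n | x n ∈ K} with hS
  -- the restricted family
  let f : Option S → Option (Fin (J + 1)) := Option.map Subtype.val
  have hf : Function.Injective f := Option.map_injective Subtype.val_injective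
  have h1 : LinearIndependent ℚ ((fun o : Option (Fin (J + 1)) => o.elim (1 : ℝ) x) ∘ f) := hx.comp f hf
  have hmem : ∀ o : Option S, ((fun o : Option (Fin (J + 1)) => o.elim (1 : ℝ) x) ∘ f) o ∈ K := by
    intro o
    rcases o with _ | ⟨n, hn⟩
    · exact one_mem K
    · exact hn
  let v : Option S → K := fun o => ⟨((fun o : Option (Fin (J + 1)) => o.elim (1 : ℝ) x) ∘ f) o, hmem o⟩
  have h2 : LinearIndependent ℚ v := by
    refine LinearIndependent.of_comp K.val.toLinearMap ?_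
    exact h1
  have h3 := h2.fintype_card_le_finrank
  rw [Fintype.card_option] at h3
  have h4 : Fintype.card S = S.ncard := by
    rw [Set.ncard_eq_toFinset_card', Set.toFinset_card]
  omega

end Pool.Agent.helper49.GP
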